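import Mathlib

/-!
# Derivations of the algebraic closure of `K(x_1, …, x_n)` and specialisation (helper54)
-/

set_option autoImplicit false

open MvPolynomial TensorProduct

namespace Pool.Agent.K6.H54.CY

section der

variable {K : Type} [Field K] [CharZero K] {σ : Type}

instance instCharZeroFraction : CharZero (FractionRing (MvPolynomial σ K)) :=
  charZero_of_injective_algebraMap (R := MvPolynomial σ K)
    (IsFractionRing.injective (MvPolynomial σ K) (FractionRing (MvPolynomial σ K)))

/-- The derivation `∂/∂x_l` extends to the algebraic closure of `K(x)`. -/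
theorem exists_derivation [DecidableEq σ] (l : σ) :
    ∃ D : Derivation K (AlgebraicClosure (FractionRing (MvPolynomial σ K)))
      (AlgebraicClosure (FractionRing (MvPolynomial σ K))), ∀ m : σ,
      D (algebraMap (MvPolynomial σ K) _ (X m)) = if l = m then 1 else 0 := by
  classical
  set S := MvPolynomial σ K
  set E := FractionRing S
  set W := AlgebraicClosure E
  have h1 : Algebra.FormallyEtale S E := Algebra.FormallyEtale.of_isLocalization (nonZeroDivisors S)
  have h2 : Algebra.FormallyEtale E W := Algebra.FormallyEtale.of_isSeparable E W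
  have h3 : Algebra.FormallyEtale S W := Algebra.FormallyEtale.comp S E W
  let d0 : Derivation K S W := mkDerivation K (fun m => if l = m then (1 : W) else 0)
  let φ : Ω[S⁄K] →ₗ[S] W := d0.liftKaehlerDifferential
  let ψ : W ⊗[S] Ω[S⁄K] →ₗ[W] W := LinearMap.liftBaseChange W φ
  let χ : Ω[W⁄K] →ₗ[W] W :=
    ψ ∘ₗ (KaehlerDifferential.tensorKaehlerEquivOfFormallyEtale K S W).symm.toLinearMap
  refine ⟨χ.compDer (KaehlerDifferential.D K W), fun m => ?_⟩
  change ψ ((KaehlerDifferential.tensorKaehlerEquivOfFormallyEtale K S W).symm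
    (KaehlerDifferential.D K W (algebraMap S W (X m)))) = _
  rw [KaehlerDifferential.tensorKaehlerEquivOfFormallyEtale_symm_D_algebraMap]
  change LinearMap.liftBaseChange W φ _ = _
  rw [LinearMap.liftBaseChange_tmul, one_smul]
  change d0.liftKaehlerDifferential _ = _
  rw [Derivation.liftKaehlerDifferential_comp_D]
  exact mkDerivation_X K _ m

omit [CharZero K] in
/-- The chain rule. -/
theorem chain {W : Type} [CommRing W] [Algebra K W] (D : Derivation K W W) {τ : Type} [Fintype τ]
    (ξ : τ → W) (F : MvPolynomial τ K) :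
    D (aeval ξ F) = ∑ t, aeval ξ (pderiv t F) * D (ξ t) := by
  classical
  induction F using MvPolynomial.induction_on with
  | C a => simp
  | add p q hp hq =>
    rw [map_add, map_add, hp, hq, ← Finset.sum_add_distrib]
    refine Finset.sum_congr rfl fun t _ => ?_
    rw [map_add, map_add]
    ring
  | mul_X p s hp =>
    rw [map_mul, Derivation.leibniz, hp, aeval_X, smul_eq_mul, smul_eq_mul, Finset.mul_sum]
    have h : ∀ t, aeval ξ (pderiv t (p * X s)) * D (ξ t) =
        (if t = s then aeval ξ p * D (ξ s) else 0) + ξ s * (aeval ξ (pderiv t p) * D (ξ t)) := by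
      intro t
      rw [Derivation.leibniz, smul_eq_mul, smul_eq_mul, map_add, map_mul, map_mul, aeval_X]
      by_cases hts : t = s
      · subst hts
        rw [if_pos rfl, pderiv_X_self, map_one]
        ring
      · rw [if_neg hts, pderiv_X_of_ne (fun h => hts h.symm), map_zero]
        ring
    rw [Finset.sum_congr rfl fun t _ => h t, Finset.sum_add_distrib, Finset.sum_ite_eq' Finset.univ s,
      if_pos (Finset.mem_univ s)]

end der

section spec

variable {K : Type} [Field K]

/-- Specialisation of a point over any algebra to a point over the algebraic closure. -/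
theorem specialise {W : Type} [CommRing W] [Nontrivial W] [Algebra K W] {τ : Type} [Finite τ]
    (ξ : τ → W) : ∃ ξ₀ : τ → AlgebraicClosure K, ∀ p : MvPolynomial τ K,
      aeval ξ p = 0 → aeval ξ₀ p = 0 := by
  have hI : RingHom.ker (aeval ξ : MvPolynomial τ K →ₐ[K] W) ≠ ⊤ := RingHom.ker_ne_top _
  obtain ⟨M, hM, hIM⟩ := Ideal.exists_le_maximal _ hI
  let : Field (MvPolynomial τ K ⧸ M) := Ideal.Quotient.field M
  have hft : Algebra.FiniteType K (MvPolynomial τ K ⧸ M) :=
    Algebra.FiniteType.of_surjective (Ideal.Quotient.mkₐ K M) (Ideal.Quotient.mkₐ_surjective K M)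
  have hfin : Module.Finite K (MvPolynomial τ K ⧸ M) :=
    finite_of_finite_type_of_isJacobsonRing K (MvPolynomial τ K ⧸ M)
  let e : (MvPolynomial τ K ⧸ M) →ₐ[K] AlgebraicClosure K := IsAlgClosed.lift
  refine ⟨fun t => e (Ideal.Quotient.mkₐ K M (X t)), fun p hp => ?_⟩
  have h1 : aeval (fun t => e (Ideal.Quotient.mkₐ K M (X t))) p =
      (e.comp (Ideal.Quotient.mkₐ K M)) p := by
    have : (aeval (fun t => e (Ideal.Quotient.mkₐ K M (X t))) :
        MvPolynomial τ K →ₐ[K] AlgebraicClosure K) = e.comp (Ideal.Quotient.mkₐ K M) := by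
      apply MvPolynomial.algHom_ext
      intro t
      rw [aeval_X]
      rfl
    rw [this]
  rw [h1]
  have h2 : Ideal.Quotient.mkₐ K M p = 0 :=
    Ideal.Quotient.eq_zero_iff_mem.2 (hIM (RingHom.mem_ker.2 hp))
  change e (Ideal.Quotient.mkₐ K M p) = 0
  rw [h2, map_zero]

/-- Specialisation, with a polynomial which does not vanish. -/
theorem specialise' {W : Type} [Field W] [Algebra K W] {τ : Type} [Finite τ]
    (ξ : τ → W) (q : MvPolynomial τ K) (hq : aeval ξ q ≠ 0) :
    ∃ ξ₀ : τ → AlgebraicClosure K, (∀ p : MvPolynomial τ K,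
      aeval ξ p = 0 → aeval ξ₀ p = 0) ∧ aeval ξ₀ q ≠ 0 := by
  obtain ⟨ζ, hζ⟩ := specialise (K := K) (fun o : Option τ => o.elim (aeval ξ q)⁻¹ ξ)
  refine ⟨fun t => ζ (some t), fun p hp => ?_, fun h0 => ?_⟩
  · have h1 := hζ (rename some p) (by
      rw [aeval_rename]
      exact hp)
    rw [aeval_rename] at h1
    exact h1
  · have h1 := hζ (rename some q * X none - 1) (by
      rw [map_sub, map_mul, aeval_rename, aeval_X, map_one]
      change aeval ξ q * (aeval ξ q)⁻¹ - 1 = 0
      rw [mul_inv_cancel₀ hq, sub_self])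
    rw [map_sub, map_mul, aeval_rename, map_one] at h1
    have h2 : aeval (ζ ∘ some) q = 0 := h0
    rw [h2, zero_mul, zero_sub, neg_eq_zero] at h1
    exact one_ne_zero h1

end spec

end Pool.Agent.K6.H54.CY
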