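import Pool.Agent.K6.H54.CY.Tan

/-!
# Tangent lines over a finite extension (helper54)
-/

set_option autoImplicit false
set_option linter.unusedSectionVars false

open MvPolynomial

namespace Pool.Agent.K6.H54.CY

open Pool.Agent.Q35.TT (Hom4 SmoothF SmoothN ch pt bd mo)
open Pool.Agent.Q224.TT (Lam lin res)

section spec

variable {K : Type} [Field K] [CharZero K] {n : ℕ}

/-- **A tangent line over the algebraic closure**, general for the polynomial `h`. -/
theorem tangent_closure {i j : Fin n} (hij : i ≠ j) {F : MvPolynomial (Fin n × Fin 2) K}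
    (hF : Hom4 F) (hs : SmoothF F) :
    ∃ ε : Fin 2 → Fin 2, ∀ h : MvPolynomial (Fin n) K, h ≠ 0 →
      ∃ (η : Fin n → AlgebraicClosure K) (t₂ : AlgebraicClosure K) (a t : K),
      aeval η (ch F (eps i j ε)) = 0 ∧ aeval η (pderiv i (ch F (eps i j ε))) = 0 ∧
      aeval η (pderiv j (ch F (eps i j ε))) ≠ 0 ∧
      aeval (Function.update η i t₂) (ch F (eps i j ε)) ≠ 0 ∧
      aeval (Function.update (Function.update η i (algebraMap K _ a)) j (algebraMap K _ t)) h ≠ 0 := by
  classical
  have : Infinite K := CharZero.infinite K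
  obtain ⟨ε, y, t₂, h0, h1, h2, h3⟩ := tangent_generic hij hF hs
  refine ⟨ε, fun h hh => ?_⟩
  set f := ch F (eps i j ε) with hf
  set η := ext2 (fun l => algebraMap (MvPolynomial (Fin n) K) (AlgebraicClosure (FractionRing (MvPolynomial (Fin n) K))) (X l)) i j y with hη
  obtain ⟨y0, hy0⟩ := Pool.Agent.Q224.TT.exists_eval h hh
  -- the polynomial `h` at the general point of the surface
  have h4 : aeval (Function.update (Function.update η i (algebraMap K (AlgebraicClosure (FractionRing (MvPolynomial (Fin n) K))) (y0 i))) j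
      (algebraMap K (AlgebraicClosure (FractionRing (MvPolynomial (Fin n) K))) (y0 j))) h ≠ 0 := by
    set J : Finset (Fin n) := (Finset.univ.erase i).erase j with hJ
    have h5 : res J y0 h ≠ 0 := by
      rw [Pool.Agent.Q224.TT.res_ne_zero]
      exact ⟨y0, Pool.Agent.Q224.TT.on_refl J y0, hy0⟩
    have h6 : aeval (Function.update (Function.update η i (algebraMap K (AlgebraicClosure (FractionRing (MvPolynomial (Fin n) K))) (y0 i))) j
        (algebraMap K (AlgebraicClosure (FractionRing (MvPolynomial (Fin n) K))) (y0 j))) h = algebraMap (MvPolynomial (Fin n) K) (AlgebraicClosure (FractionRing (MvPolynomial (Fin n) K))) (res J y0 h) := by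
      have h7 : (aeval (Function.update (Function.update η i (algebraMap K (AlgebraicClosure (FractionRing (MvPolynomial (Fin n) K))) (y0 i))) j
          (algebraMap K (AlgebraicClosure (FractionRing (MvPolynomial (Fin n) K))) (y0 j))) : MvPolynomial (Fin n) K →ₐ[K] (AlgebraicClosure (FractionRing (MvPolynomial (Fin n) K)))) =
          (IsScalarTower.toAlgHom K (MvPolynomial (Fin n) K) (AlgebraicClosure (FractionRing (MvPolynomial (Fin n) K)))).comp (res J y0) := by
        apply MvPolynomial.algHom_ext
        intro l
        rw [aeval_X, AlgHom.comp_apply, IsScalarTower.coe_toAlgHom']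
        by_cases hlj : l = j
        · subst hlj
          rw [Function.update_self, Pool.Agent.Q224.TT.res_X' (by simp [hJ])]
          exact IsScalarTower.algebraMap_apply K (MvPolynomial (Fin n) K) (AlgebraicClosure (FractionRing (MvPolynomial (Fin n) K))) _
        · rw [Function.update_of_ne hlj]
          by_cases hli : l = i
          · subst hli
            rw [Function.update_self, Pool.Agent.Q224.TT.res_X' (by simp [hJ])]
            exact IsScalarTower.algebraMap_apply K (MvPolynomial (Fin n) K) (AlgebraicClosure (FractionRing (MvPolynomial (Fin n) K))) _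
          · rw [Function.update_of_ne hli, Pool.Agent.Q224.TT.res_X (by simp [hJ, hlj, hli])]
            simp [hη, ext2, hlj, hli]
      exact AlgHom.congr_fun h7 h
    rw [h6]
    have hinj : Function.Injective (algebraMap (MvPolynomial (Fin n) K) (AlgebraicClosure (FractionRing (MvPolynomial (Fin n) K)))) := by
      rw [IsScalarTower.algebraMap_eq (MvPolynomial (Fin n) K)
        (FractionRing (MvPolynomial (Fin n) K)) (AlgebraicClosure (FractionRing (MvPolynomial (Fin n) K)))]
      exact (algebraMap (FractionRing (MvPolynomial (Fin n) K)) (AlgebraicClosure (FractionRing (MvPolynomial (Fin n) K)))).injective.comp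
        (IsFractionRing.injective _ _)
    intro h8
    exact h5 (hinj (by rw [h8, map_zero]))
  -- the polynomials in `Option (Fin n)`
  let A1 : MvPolynomial (Fin n) K →ₐ[K] MvPolynomial (Option (Fin n)) K :=
    aeval (fun l => if l = i then X none else X (some l))
  let A2 : MvPolynomial (Fin n) K →ₐ[K] MvPolynomial (Option (Fin n)) K :=
    aeval (fun l => if l = j then C (y0 j) else if l = i then C (y0 i) else X (some l))
  have hA1 : ∀ {B : Type} [Field B] [Algebra K B] (ζ : Option (Fin n) → B)
      (g : MvPolynomial (Fin n) K), aeval ζ (A1 g) =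
        aeval (Function.update (fun l => ζ (some l)) i (ζ none)) g := by
    intro B _ _ ζ g
    have : (aeval ζ).comp A1 = aeval (Function.update (fun l => ζ (some l)) i (ζ none)) := by
      apply MvPolynomial.algHom_ext
      intro l
      rw [AlgHom.comp_apply, aeval_X, aeval_X]
      by_cases hli : l = i
      · subst hli
        simp
      · simp [hli]
    exact AlgHom.congr_fun this g
  have hA2 : ∀ {B : Type} [Field B] [Algebra K B] (ζ : Option (Fin n) → B)
      (g : MvPolynomial (Fin n) K), aeval ζ (A2 g) =
        aeval (Function.update (Function.update (fun l => ζ (some l)) i (algebraMap K B (y0 i))) j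
          (algebraMap K B (y0 j))) g := by
    intro B _ _ ζ g
    have : (aeval ζ).comp A2 = aeval (Function.update (Function.update (fun l => ζ (some l)) i
        (algebraMap K B (y0 i))) j (algebraMap K B (y0 j))) := by
      apply MvPolynomial.algHom_ext
      intro l
      rw [AlgHom.comp_apply, aeval_X, aeval_X]
      by_cases hlj : l = j
      · subst hlj
        simp
      · by_cases hli : l = i
        · subst hli
          simp [hlj]
        · simp [hli, hlj]
    exact AlgHom.congr_fun this g
  set ξ : Option (Fin n) → (AlgebraicClosure (FractionRing (MvPolynomial (Fin n) K))) := fun o => o.elim t₂ η with hξ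
  obtain ⟨ξ₀, hz, hnz⟩ := specialise' (K := K) ξ
    (rename some (pderiv j f) * A1 f * A2 h) (by
      rw [map_mul, map_mul, hA1, hA2, aeval_rename]
      exact mul_ne_zero (mul_ne_zero h2 h3) h4)
  rw [map_mul, map_mul, hA1, hA2, aeval_rename] at hnz
  refine ⟨fun l => ξ₀ (some l), ξ₀ none, y0 i, y0 j, ?_, ?_, ?_, ?_, ?_⟩
  · have := hz (rename some f) (by rw [aeval_rename]; exact h0)
    rwa [aeval_rename] at this
  · have := hz (rename some (pderiv i f)) (by rw [aeval_rename]; exact h1)
    rwa [aeval_rename] at this
  · exact left_ne_zero_of_mul (left_ne_zero_of_mul hnz)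
  · exact right_ne_zero_of_mul (left_ne_zero_of_mul hnz)
  · exact right_ne_zero_of_mul hnz

end spec

section ext

variable {K : Type} [Field K] [NumberField K] {n : ℕ}

/-- **A tangent line over a number field, with infinitely many points over it.** -/
theorem tangent_ext {i j : Fin n} {f : MvPolynomial (Fin n) K} (hf : f.degreeOf i ≤ 4)
    {h : MvPolynomial (Fin n) K} {η : Fin n → AlgebraicClosure K} {t₂ : AlgebraicClosure K} {a t : K}
    (h0 : aeval η f = 0) (h1 : aeval η (pderiv i f) = 0) (h2 : aeval η (pderiv j f) ≠ 0)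
    (h3 : aeval (Function.update η i t₂) f ≠ 0)
    (h4 : aeval (Function.update (Function.update η i (algebraMap K _ a)) j (algebraMap K _ t)) h ≠ 0) :
    ∃ (K' : Type) (_ : Field K') (_ : NumberField K') (φ : K →+* K') (c : Fin n → K') (a' t' : K'),
      eval c (map φ f) = 0 ∧ eval c (pderiv i (map φ f)) = 0 ∧ eval c (pderiv j (map φ f)) ≠ 0 ∧
      eval (Function.update (Function.update c i a') j t') (map φ h) ≠ 0 ∧
      ∀ S : Set K', S.Finite → ∃ z w : K', z ∉ S ∧ w ≠ 0 ∧
        w ^ 2 = eval (Function.update c i z) (map φ f) := by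
  classical
  set q : Polynomial (AlgebraicClosure K) := lin η i (map (algebraMap K (AlgebraicClosure K)) f) with hq
  have hqe : ∀ s, q.eval s = aeval (Function.update η i s) f := by
    intro s
    rw [hq, Pool.Agent.Q224.TT.eval_lin, eval_map, ← aeval_def]
  have hqd : ∀ s, (Polynomial.derivative q).eval s = aeval (Function.update η i s) (pderiv i f) := by
    intro s
    rw [hq, Pool.Agent.Q224.TT.derivative_lin, Pool.Agent.Q224.TT.eval_lin, MvPolynomial.pderiv_map,
      eval_map, ← aeval_def]
  set r := η i with hr
  have hηr : Function.update η i r = η := Function.update_eq_self i η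
  have hq0 : q.eval r = 0 := by rw [hqe, hηr, h0]
  have hq0' : (Polynomial.derivative q).eval r = 0 := by rw [hqd, hηr, h1]
  have hdeg : q.natDegree ≤ 4 := Pool.Agent.Q224.TT.natDegree_lin η i _
    ((Pool.Agent.Q224.TT.degreeOf_map_le' f i (algebraMap K (AlgebraicClosure K))).trans hf)
  have hqn : q ≠ 0 := by
    intro h
    apply h3
    rw [← hqe, h, Polynomial.eval_zero]
  obtain ⟨q1, hq1⟩ := Polynomial.dvd_iff_isRoot.2 (show q.IsRoot r from hq0)
  have hq1r : q1.eval r = 0 := by
    rw [hq1, Polynomial.derivative_mul, Polynomial.eval_add, Polynomial.eval_mul,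
      Polynomial.eval_mul] at hq0'
    simpa using hq0'
  obtain ⟨q0, hq0⟩ := Polynomial.dvd_iff_isRoot.2 (show q1.IsRoot r from hq1r)
  have hq0n : q0 ≠ 0 := by
    intro h
    rw [hq1, hq0, h, mul_zero, mul_zero] at hqn
    exact hqn rfl
  have hXr : (Polynomial.X - Polynomial.C r) ≠ 0 := Polynomial.X_sub_C_ne_zero r
  have hdeg0 : q0.natDegree ≤ 2 := by
    rw [hq1, hq0, Polynomial.natDegree_mul hXr (mul_ne_zero hXr hq0n),
      Polynomial.natDegree_mul hXr hq0n, Polynomial.natDegree_X_sub_C] at hdeg
    omega
  have hq0e : ∀ t, q0.eval t = q0.coeff 2 * t ^ 2 + q0.coeff 1 * t + q0.coeff 0 := by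
    intro t
    rw [Polynomial.eval_eq_sum_range' (n := 3) (by omega)]
    simp only [Finset.sum_range_succ, Finset.sum_range_zero]
    ring
  have hqe' : ∀ t, q.eval t = (t - r) ^ 2 * (q0.coeff 2 * t ^ 2 + q0.coeff 1 * t + q0.coeff 0) := by
    intro t
    rw [hq1, hq0, Polynomial.eval_mul, Polynomial.eval_mul, hq0e]
    simp only [Polynomial.eval_sub, Polynomial.eval_X, Polynomial.eval_C]
    ring
  obtain ⟨t1, ht1⟩ := Infinite.exists_notMem_finset q0.roots.toFinset
  have ht1e : q0.eval t1 ≠ 0 := by
    intro h
    exact ht1 (Multiset.mem_toFinset.2 ((Polynomial.mem_roots hq0n).2 h))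
  obtain ⟨w1, hw1⟩ := IsAlgClosed.exists_pow_nat_eq (q0.eval t1) (n := 2) (by norm_num)
  have hw1n : w1 ≠ 0 := by
    intro h
    rw [h, zero_pow two_ne_zero] at hw1
    exact ht1e hw1.symm
  rw [hq0e] at hw1
  obtain ⟨S0, hS0⟩ : ∃ S0 : Finset (AlgebraicClosure K),
      S0 = Finset.univ.image η ∪ {w1, t1, q0.coeff 2, q0.coeff 1, q0.coeff 0} := ⟨_, rfl⟩
  let L := IntermediateField.adjoin K (S0 : Set (AlgebraicClosure K))
  have : FiniteDimensional K L := IntermediateField.finiteDimensional_adjoin
    (fun x _ => Algebra.IsIntegral.isIntegral x)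
  have : NumberField L := NumberField.of_module_finite K L
  have hmem : ∀ x ∈ S0, ∃ x' : L, algebraMap L (AlgebraicClosure K) x' = x := by
    intro x hx
    exact ⟨⟨x, IntermediateField.subset_adjoin K _ (Finset.mem_coe.2 hx)⟩, rfl⟩
  have hc : ∀ l, ∃ x' : L, algebraMap L (AlgebraicClosure K) x' = η l := fun l => hmem _ (by
    rw [hS0]
    exact Finset.mem_union_left _ (Finset.mem_image_of_mem _ (Finset.mem_univ l)))
  choose c hc using hc
  obtain ⟨w1', hw1'⟩ := hmem w1 (by rw [hS0]; simp)
  obtain ⟨t1', ht1'⟩ := hmem t1 (by rw [hS0]; simp)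
  obtain ⟨l', hl'⟩ := hmem (q0.coeff 2) (by rw [hS0]; simp)
  obtain ⟨m', hm'⟩ := hmem (q0.coeff 1) (by rw [hS0]; simp)
  obtain ⟨n', hn'⟩ := hmem (q0.coeff 0) (by rw [hS0]; simp)
  have hinj : Function.Injective (algebraMap L (AlgebraicClosure K)) := (algebraMap L (AlgebraicClosure K)).injective
  have hdown : ∀ (z : Fin n → L) (g : MvPolynomial (Fin n) K),
      algebraMap L (AlgebraicClosure K) (eval z (map (algebraMap K L) g)) = aeval (fun l => algebraMap L (AlgebraicClosure K) (z l)) g := by
    intro z g
    rw [eval_map, aeval_def, eval₂_comp_left, ← IsScalarTower.algebraMap_eq]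
    rfl
  have hcf : (fun l => algebraMap L (AlgebraicClosure K) (c l)) = η := funext hc
  have hup : ∀ (s : L) (k : Fin n) (z : Fin n → L),
      (fun l => algebraMap L (AlgebraicClosure K) (Function.update z k s l)) =
        Function.update (fun l => algebraMap L (AlgebraicClosure K) (z l)) k (algebraMap L (AlgebraicClosure K) s) := by
    intro s k z
    funext l
    by_cases hl : l = k
    · subst hl; simp
    · simp [hl]
  refine ⟨L, inferInstance, inferInstance, algebraMap K L, c, algebraMap K L a, algebraMap K L t,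
    ?_, ?_, ?_, ?_, ?_⟩
  · apply hinj
    rw [hdown, hcf, h0, map_zero]
  · apply hinj
    rw [MvPolynomial.pderiv_map, hdown, hcf, h1, map_zero]
  · intro h
    apply h2
    rw [← hcf, ← hdown, ← MvPolynomial.pderiv_map, h, map_zero]
  · intro h
    apply h4
    have h5 : Function.update (Function.update η i (algebraMap K (AlgebraicClosure K) a)) j (algebraMap K (AlgebraicClosure K) t) =
        fun l => algebraMap L (AlgebraicClosure K) (Function.update (Function.update c i (algebraMap K L a)) j
          (algebraMap K L t) l) := by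
      rw [hup, hup, hcf, ← IsScalarTower.algebraMap_apply, ← IsScalarTower.algebraMap_apply]
    rw [h5, ← hdown, h, map_zero]
  · intro S hS
    have hw1n' : w1' ≠ 0 := by
      intro h
      rw [h, map_zero] at hw1'
      exact hw1n hw1'.symm
    have hsq : w1' ^ 2 = l' * t1' ^ 2 + m' * t1' + n' := by
      apply hinj
      rw [map_pow, map_add, map_add, map_mul, map_mul, map_pow, hw1', hl', ht1', hm', hn']
      exact hw1
    obtain ⟨z, w0, hc1, hc2, hc3, hc4⟩ :=
      Pool.Agent.Q153.ZC.conic l' m' n' t1' w1' (c i) hw1n' hsq S hS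
    refine ⟨z, (z - c i) * w0, hc1, mul_ne_zero (sub_ne_zero.2 hc2) hc3, ?_⟩
    apply hinj
    rw [hdown, hup, hcf, ← hqe, hqe', mul_pow, hc4]
    rw [map_mul, map_pow, map_sub, map_add, map_add, map_mul, map_mul, map_pow, hc i, hl', hm',
      hn']

end ext

end Pool.Agent.K6.H54.CY
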