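import Pool.Agent.K6.H54.CY.Ext

/-!
# Calabi-Yau double covers: rational points in the same class (helper54)
-/

set_option autoImplicit false
set_option linter.unusedSectionVars false

open MvPolynomial

namespace Pool.Agent.K6.H54.CY

open Pool.Agent.Q35.TT (Hom4 SmoothF SmoothN TorN ch pt ND lc af pq)
open Pool.Agent.Q224.TT (Lam lin res)
open Pool.Agent.Q35.ZC

section inv

variable {K : Type} [Field K] [CharZero K] {n : ℕ}

omit [CharZero K] in
theorem lin_update (g : MvPolynomial (Fin n) K) (x : Fin n → K) (j : Fin n) (t : K) :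
    lin (Function.update x j t) j g = lin x j g := by
  unfold Pool.Agent.Q224.TT.lin
  congr 2
  funext l
  by_cases hl : l = j
  · rw [if_pos hl, if_pos hl]
  · rw [if_neg hl, if_neg hl, Function.update_of_ne hl]

theorem genus_update {f : MvPolynomial (Fin n) K} (hf : ∀ j, f.degreeOf j ≤ 4) {x : Fin n → K}
    {j : Fin n} {t : K} (h : GenusOne (line f (Function.update x j t) j)) : GenusOne (line f x j) := by
  rw [genus_iff hf] at h ⊢
  rwa [lc_line f (Function.update x j t) x j (fun k hk => Function.update_of_ne hk _ _)] at h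

omit [CharZero K] in
theorem special_update {f : MvPolynomial (Fin n) K} {x : Fin n → K} {j k : Fin n} {t : K}
    (h : NotSpecial f (Function.update x j t) j k) : NotSpecial f x j k := by
  obtain ⟨h1, u, h2⟩ := h
  refine ⟨fun hd => h1 ?_, t - x j + u, ?_⟩
  · have h3 := lin_dvd_of_line hd
    rw [line_comp, line_comp, lin_update, lin_update]
    exact map_dvd (Polynomial.compRingHom (Polynomial.X +
      Polynomial.C (Function.update x j t j))) h3
  · have h3 : (fun a => x a + (t - x j + u) * (Pi.single j 1 : Fin n → K) a) =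
        fun a => Function.update x j t a + u * (Pi.single j 1 : Fin n → K) a := by
      funext a
      by_cases ha : a = j
      · subst ha
        simp
        ring
      · simp [ha]
    rw [h3]
    exact h2

/-- A line tangent to the divisor at a point where the derivative in the direction `j` does not
vanish is not special. -/
theorem nd_tangent {f : MvPolynomial (Fin n) K} (hf : ∀ j, f.degreeOf j ≤ 4) {c : Fin n → K}
    {i j : Fin n} (h0 : eval c f = 0) (h1 : eval c (pderiv j f) ≠ 0) :
    ND (lc f (af c) i) (lc (pderiv j f) (af c) i) := by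
  left
  intro hd
  rw [Pool.Agent.Q224.TT.pq_lc f c i (hf i), Pool.Agent.Q224.TT.pq_lc (pderiv j f) c i
    (Pool.Agent.Q26.TT.degreeOf_pderiv (hf i) j)] at hd
  obtain ⟨s, hs⟩ := hd
  have h2 := congrArg (Polynomial.eval (c i)) hs
  rw [Polynomial.eval_pow, Polynomial.eval_mul, Pool.Agent.Q224.TT.eval_lin,
    Pool.Agent.Q224.TT.eval_lin, Function.update_eq_self, h0, zero_mul] at h2
  exact h1 (pow_eq_zero_iff two_ne_zero |>.1 h2)

end inv

/-- **Points over a tangent line**: all but finitely many of them, if the line is general enough. -/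
theorem near_tangent {K : Type} [Field K] [NumberField K] {n : ℕ} {f : MvPolynomial (Fin n) K}
    (hf : ∀ j, f.degreeOf j ≤ 4) {h : MvPolynomial (Fin n) K}
    (hh : ∀ y, eval y h ≠ 0 → (∀ i, GenusOne (line f y i)) ∧ ∀ i j, i ≠ j → NotSpecial f y i j)
    {e : K} (he : e ≠ 0) {c : Fin n → K} {i j : Fin n} (hij : i ≠ j) {a t : K}
    (h0 : eval c f = 0) (h1 : eval c (pderiv j f) ≠ 0)
    (h2 : eval (Function.update (Function.update c i a) j t) h ≠ 0) :
    ∃ S : Set K, S.Finite ∧ ∀ z w : K, z ∉ S → w ≠ 0 →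
      w ^ 2 = eval (Function.update c i z) (C e * f) →
        Good (C e * f) (Function.update c i z, w) := by
  have hcomm : ∀ z, Function.update (Function.update c i z) j t =
      Function.update (Function.update c j t) i z := fun z => Function.update_comm hij _ _ _
  have hfin1 : {z : K | TorN f (Function.update c i z) j}.Finite :=
    Pool.Agent.Q35.TT.tbn_of Pool.Agent.Q35.TT.orn2 K n f hf c i j hij (nd_tangent hf h0 h1)
  have hne : lin (Function.update c j t) i h ≠ 0 := by
    intro h3
    apply h2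
    rw [hcomm, ← Pool.Agent.Q224.TT.eval_lin, h3, Polynomial.eval_zero]
  have hfin2 : {z : K | (lin (Function.update c j t) i h).eval z = 0}.Finite :=
    Polynomial.finite_setOfPred_isRoot hne
  refine ⟨_, hfin1.union hfin2, fun z w hz hw hon => ?_⟩
  rw [Set.mem_union, not_or] at hz
  obtain ⟨k1, k2⟩ := hz
  have h3 : eval (Function.update (Function.update c i z) j t) h ≠ 0 := by
    rw [hcomm, ← Pool.Agent.Q224.TT.eval_lin]
    exact k2
  obtain ⟨g1, g2⟩ := hh _ h3
  exact good_dir Pool.Agent.Q35.TT.tws2 hf he hw hon (i := j) k1 (genus_update hf (g1 j))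
    fun k hk => special_update (g2 j k (Ne.symm hk))

/-- **Over a finite extension.** -/
theorem good_ext {K : Type} [Field K] [NumberField K] {n : ℕ} {i j : Fin n} (hij : i ≠ j)
    {F : MvPolynomial (Fin n × Fin 2) K} (hF : Hom4 F) (hs : SmoothF F) :
    ∃ (ε : Fin n → Fin 2) (K' : Type) (_ : Field K') (_ : NumberField K') (φ : K →+* K')
      (P : (Fin n → K') × K'), P.2 ≠ 0 ∧ P ∈ CT (map φ (ch F ε)) ∧ Good (map φ (ch F ε)) P := by
  obtain ⟨ε, htan⟩ := tangent_closure hij hF hs
  obtain ⟨hd, hsm, -⟩ := Pool.Agent.Q182.TT.CHF.chf K n F hF (eps i j ε)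
  have hsN := hsm hs
  set f := ch F (eps i j ε) with hf
  obtain ⟨h, hh0, hh⟩ := ex_general hd hsN
  obtain ⟨η, t₂, a, t, h0, h1, h2, h3, h4⟩ := htan h hh0
  obtain ⟨K', i1, i2, φ, c, a', t', k0, k1, k2, k3, k4⟩ := tangent_ext (hd i) h0 h1 h2 h3 h4
  have hd' : ∀ j, (map φ f).degreeOf j ≤ 4 := degreeOf_map_le'' φ hd
  obtain ⟨S, hS, hS'⟩ := near_tangent hd' (fun y hy => hh K' φ y hy) (e := 1) one_ne_zero hij k0 k2 k3
  rw [map_one, one_mul] at hS'
  obtain ⟨z, w, hz, hw, hon⟩ := k4 S hS
  have hP : (Function.update c i z, w) ∈ CT (map φ f) :=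
    tangent_ct nod2 (i := i) (hd' i) hon
      ⟨fun l => toC K' (c l), fun k hk => by
        change toC K' (c k) = toC K' (Function.update c i z k)
        rw [Function.update_of_ne hk], by
        have e1 := eval_image (toC K') (map φ f) (c, (0 : K'))
        rw [k0, map_zero, eval_map] at e1
        rw [aeval_def]
        exact e1, by
        have e1 := eval_image (toC K') (pderiv i (map φ f)) (c, (0 : K'))
        rw [k1, map_zero, eval_map] at e1
        rw [aeval_def]
        exact e1⟩
  exact ⟨eps i j ε, K', i1, i2, φ, (Function.update c i z, w), hw, hP, hS' z w hz hw hon⟩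

/-- **Over all finite extensions of a finite extension.** -/
theorem near_ext {K : Type} [Field K] [NumberField K] {n : ℕ} {i j : Fin n} (hij : i ≠ j)
    {F : MvPolynomial (Fin n × Fin 2) K} (hF : Hom4 F) (hs : SmoothF F) :
    ∃ (ε : Fin n → Fin 2) (K' : Type) (_ : Field K') (_ : NumberField K') (φ : K →+* K')
      (P : (Fin n → K') × K'), P.2 ≠ 0 ∧ ∀ (L : Type) [Field L] [NumberField L] (ψ : K' →+* L),
        image ψ P ∈ CT (map (ψ.comp φ) (ch F ε)) ∧
        Near (map (ψ.comp φ) (ch F ε)) (CT (map (ψ.comp φ) (ch F ε))) (image ψ P) := by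
  obtain ⟨ε, K', i1, i2, φ, P, hw, hP, hG⟩ := good_ext hij hF hs
  obtain ⟨hd, -⟩ := Pool.Agent.Q182.TT.CHF.chf K n F hF ε
  refine ⟨ε, K', i1, i2, φ, P, hw, fun L _ _ ψ => ?_⟩
  rw [← MvPolynomial.map_map]
  have h1 := ct_map ψ map2 hP
  have hd' : ∀ j, (map φ (ch F ε)).degreeOf j ≤ 4 := degreeOf_map_le'' φ hd
  have hd'' : ∀ j, (map ψ (map φ (ch F ε))).degreeOf j ≤ 4 := degreeOf_map_le'' ψ hd'
  exact ⟨h1, Near.mono (odds_ct map2 h1) (Good.near step2 hd''
    (show ψ P.2 ≠ 0 from (map_ne_zero ψ).2 hw) (onCover_map ψ hP.1) (Good.map ψ hP.1 hG))⟩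

/-- **The general rational point.** -/
theorem near_general {K : Type} [Field K] [NumberField K] {n : ℕ}
    {f : MvPolynomial (Fin n) K} (hf : ∀ j, f.degreeOf j ≤ 4) {h : MvPolynomial (Fin n) K}
    (hh : ∀ y, eval y h ≠ 0 → (∀ i, GenusOne (line f y i)) ∧ ∀ i j, i ≠ j → NotSpecial f y i j)
    {e : K} (he : e ≠ 0) {z : Fin n → K} {w : K} (hw : w ≠ 0) (hon : w ^ 2 = eval z (C e * f))
    (hz : eval z h ≠ 0) (hT : ∃ i, ¬ TorN f z i) :
    Near (C e * f) (Odds (C e * f) (z, w)) (z, w) := by
  obtain ⟨i, hi⟩ := hT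
  obtain ⟨g1, g2⟩ := hh z hz
  have hg : ∀ j, (C e * f).degreeOf j ≤ 4 := fun j => (degreeOf_C_mul_le f j e).trans (hf j)
  exact Good.near step2 hg hw hon (good_dir Pool.Agent.Q35.TT.tws2 hf he hw hon hi (g1 i)
    fun j hj => g2 i j (Ne.symm hj))

end Pool.Agent.K6.H54.CY
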