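import Pool.Agent.K6.H54.CY.Lines
import Pool.Agent.Q224.TT.Sqf
import Pool.Agent.Y720.MZ.Sep

/-!
# Smooth branch divisors: the general line is not special and gives a curve of genus one (helper54)
-/

set_option autoImplicit false
set_option linter.unusedSectionVars false

open MvPolynomial Pool.Agent.Y720.MZ

namespace Pool.Agent.K6.H54.CY

open Pool.Agent.Q35.TT (SmoothN TorN Tor TorT af bq tay ND S_TWS)
open Pool.Agent.Q224.TT (Lam lin swp swp_C swp_X swp_swp Lam_inj Lam_C Lam_X Lam_X' eval_Lam map_Lam res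
  coeff_lin lc_af derivative_lin pderiv_coeff_Lam coeff_Lam_sum Lam_prime exists_eval Lam_ne_zero
  natDegree_lin eval_lin)
open Pool.Agent.Q35.ZC

section bezout

variable {A : Type} [CommRing A] [IsDomain A] [UniqueFactorizationMonoid A]

/-- a prime factor of positive degree -/
theorem exists_prime_factor (G : Polynomial A) (hG : G ≠ 0) (hd : G.natDegree ≠ 0) :
    ∃ p, Prime p ∧ p ∣ G ∧ p.natDegree ≠ 0 := by
  induction G using UniqueFactorizationMonoid.induction_on_prime with
  | h₁ => exact absurd rfl hG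
  | h₂ x hx => exact absurd (Polynomial.natDegree_eq_zero_of_isUnit hx) hd
  | h₃ a p ha hp ih =>
    by_cases h : p.natDegree = 0
    · rw [Polynomial.natDegree_mul hp.ne_zero ha, h, zero_add] at hd
      obtain ⟨q, h1, h2, h3⟩ := ih ha hd
      exact ⟨q, h1, h2.mul_left p, h3⟩
    · exact ⟨p, hp, dvd_mul_right p a, h⟩

/-- Bezout's identity with a constant, for polynomials without common factors of positive degree -/
theorem bezout (F G : Polynomial A) (hF : F ≠ 0)
    (h : ∀ p : Polynomial A, Prime p → p ∣ F → p ∣ G → p.natDegree = 0) :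
    ∃ (a b : Polynomial A) (D : A), D ≠ 0 ∧ a * F + b * G = Polynomial.C D := by
  induction hd : G.natDegree using Nat.strong_induction_on generalizing F G with
  | _ d ih =>
    by_cases hG : G = 0
    · have h1 : F.natDegree = 0 := by
        by_contra hne
        obtain ⟨p, hp, hpF, hpd⟩ := exists_prime_factor F hF hne
        exact hpd (h p hp hpF (hG ▸ dvd_zero p))
      refine ⟨1, 0, F.coeff 0, ?_, ?_⟩
      · intro h2
        apply hF
        rw [Polynomial.eq_C_of_natDegree_eq_zero h1, h2, Polynomial.C_0]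
      · rw [one_mul, zero_mul, add_zero]
        exact Polynomial.eq_C_of_natDegree_eq_zero h1
    · by_cases hd0 : G.natDegree = 0
      · refine ⟨0, 1, G.coeff 0, ?_, ?_⟩
        · intro h2
          apply hG
          rw [Polynomial.eq_C_of_natDegree_eq_zero hd0, h2, Polynomial.C_0]
        · rw [one_mul, zero_mul, zero_add]
          exact Polynomial.eq_C_of_natDegree_eq_zero hd0
      · obtain ⟨N, q, r, h1, h2⟩ := Pool.Agent.Q224.TT.pseudo G hG F
        have hlt : r.natDegree < d := by
          rw [← hd]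
          by_cases hr : r = 0
          · rw [hr, Polynomial.natDegree_zero]
            omega
          · exact Polynomial.natDegree_lt_natDegree hr h2
        have hℓ : G.leadingCoeff ≠ 0 := Polynomial.leadingCoeff_ne_zero.2 hG
        obtain ⟨a, b, D, hD, hab⟩ := ih r.natDegree hlt G r hG (by
          intro p hp hpG hpr
          have h3 : p ∣ Polynomial.C G.leadingCoeff ^ N * F := by
            rw [h1]
            exact dvd_add (hpG.mul_left q) hpr
          rcases hp.dvd_or_dvd h3 with h4 | h4
          · have h5 := hp.dvd_of_dvd_pow h4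
            have h6 := Polynomial.natDegree_le_of_dvd h5 (Polynomial.C_ne_zero.2 hℓ)
            rw [Polynomial.natDegree_C] at h6
            omega
          · exact h p hp h4 hpG) rfl
        refine ⟨b * Polynomial.C G.leadingCoeff ^ N, a - b * q, D, hD, ?_⟩
        rw [← hab]
        linear_combination b * h1

end bezout

section primes

variable {K : Type} [Field K] {n : ℕ}

/-- the coefficients with respect to `X i` do not involve `X i` -/
theorem aeval_coeff_update {B : Type} [Field B] [Algebra K B] (i : Fin n) (g : MvPolynomial (Fin n) K)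
    (k : ℕ) (y : Fin n → B) (t : B) :
    aeval (Function.update y i t) ((Lam i g).coeff k) = aeval y ((Lam i g).coeff k) := by
  rw [coeff_Lam_sum, map_sum, map_sum]
  refine Finset.sum_congr rfl fun m _ => ?_
  rw [map_mul, map_mul, map_prod, map_prod]
  congr 1
  · rw [algHom_C, algHom_C]
  · refine Finset.prod_congr rfl fun j hj => ?_
    rw [map_pow, map_pow, aeval_X, aeval_X, Function.update_of_ne (Finset.ne_of_mem_erase hj)]

/-- a polynomial which does not involve `X i` -/
theorem aeval_update_of_deg {B : Type} [Field B] [Algebra K B] (i : Fin n)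
    (g : MvPolynomial (Fin n) K) (hg : (Lam i g).natDegree = 0) (y : Fin n → B) (t : B) :
    aeval (Function.update y i t) g = aeval y g := by
  have h1 : g = (Lam i g).coeff 0 := by
    have h2 := eval_Lam i g
    rw [Polynomial.eq_C_of_natDegree_eq_zero hg, Polynomial.eval_C] at h2
    exact h2.symm
  rw [h1]
  exact aeval_coeff_update i g 0 y t

/-- extension of the base field -/
theorem Lam_map {B : Type} [Field B] (φ : K →+* B) (i : Fin n) (g : MvPolynomial (Fin n) K) :
    Lam i (map φ g) = (Lam i g).map (map φ) := by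
  have h : (Lam i).comp (map φ) = (Polynomial.mapRingHom (map φ)).comp (Lam i) := by
    apply MvPolynomial.ringHom_ext
    · intro a
      simp [Lam_C]
    · intro l
      by_cases hl : l = i
      · simp [hl, Lam_X]
      · simp [Lam_X' i hl]
  exact RingHom.congr_fun h g

theorem lin_eq_map {B : Type} [Field B] (φ : K →+* B) (y : Fin n → B) (i : Fin n)
    (g : MvPolynomial (Fin n) K) : lin y i (map φ g) = (Lam i g).map ((eval y).comp (map φ)) := by
  rw [← map_Lam, Lam_map, Polynomial.map_map]

/-- the coefficients with respect to `X i` do not involve `X i` -/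
theorem natDegree_Lam_coeff (i : Fin n) (g : MvPolynomial (Fin n) K) (k : ℕ) :
    (Lam i ((Lam i g).coeff k)).natDegree = 0 := by
  have h : Lam i ((Lam i g).coeff k) = Polynomial.C ((Lam i g).coeff k) := by
    rw [coeff_Lam_sum, map_sum, map_sum]
    refine Finset.sum_congr rfl fun m _ => ?_
    rw [map_mul, map_mul, map_prod, map_prod, Lam_C]
    congr 1
    refine Finset.prod_congr rfl fun j hj => ?_
    rw [map_pow, map_pow, Lam_X' i (Finset.ne_of_mem_erase hj)]
  rw [h, Polynomial.natDegree_C]

theorem Lam_pderiv (i : Fin n) (g : MvPolynomial (Fin n) K) :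
    Lam i (pderiv i g) = Polynomial.derivative (Lam i g) := by
  induction g using MvPolynomial.induction_on with
  | C a => rw [pderiv_C, map_zero, Lam_C, Polynomial.derivative_C]
  | add p q hp hq => rw [map_add, map_add, map_add, Polynomial.derivative_add, hp, hq]
  | mul_X p j hp =>
    rw [Derivation.leibniz, map_add, smul_eq_mul, smul_eq_mul, map_mul, map_mul, map_mul,
      Polynomial.derivative_mul, hp]
    by_cases hj : j = i
    · rw [hj, Lam_X, pderiv_X_self, map_one, Polynomial.derivative_X]
      ring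
    · rw [Lam_X' i hj, pderiv_X_of_ne (fun h => hj h), map_zero, Polynomial.derivative_C]
      ring

/-- a nonunit involves a variable -/
theorem exists_var {p : MvPolynomial (Fin n) K} [Infinite K] (hp : Prime p) :
    ∃ i, (Lam i p).natDegree ≠ 0 := by
  by_contra hcon
  push Not at hcon
  obtain ⟨c, hc⟩ := Pool.Agent.Q224.TT.const_of_deg p hcon
  apply hp.not_isUnit
  rw [hc]
  have hc0 : c ≠ 0 := by
    rintro rfl
    rw [C_0] at hc
    exact hp.ne_zero hc
  exact (IsUnit.mk0 c hc0).map C

theorem C_dvd_C' {A : Type} [CommRing A] {a b : A} (h : Polynomial.C a ∣ Polynomial.C b) : a ∣ b := by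
  have h1 := map_dvd (Polynomial.evalRingHom (0 : A)) h
  simpa using h1

/-- a prime factor which involves `X i` -/
theorem exists_prime_of_deg [Infinite K] (i : Fin n) (g : MvPolynomial (Fin n) K) (hg : g ≠ 0)
    (hd : (Lam i g).natDegree ≠ 0) : ∃ p, Prime p ∧ p ∣ g ∧ (Lam i p).natDegree ≠ 0 := by
  induction g using UniqueFactorizationMonoid.induction_on_prime with
  | h₁ => exact absurd rfl hg
  | h₂ x hx => exact absurd (Polynomial.natDegree_eq_zero_of_isUnit (hx.map (Lam i))) hd
  | h₃ a p ha hp ih =>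
    by_cases h : (Lam i p).natDegree = 0
    · rw [map_mul, Polynomial.natDegree_mul (Lam_ne_zero i hp.ne_zero) (Lam_ne_zero i ha), h,
        zero_add] at hd
      obtain ⟨q, h1, h2, h3⟩ := ih ha hd
      exact ⟨q, h1, h2.mul_left p, h3⟩
    · exact ⟨p, hp, dvd_mul_right p a, h⟩

theorem natDegree_Lam_of_dvd [Infinite K] (i : Fin n) {p g : MvPolynomial (Fin n) K} (hg : g ≠ 0) (h : p ∣ g) :
    (Lam i p).natDegree ≤ (Lam i g).natDegree :=
  Polynomial.natDegree_le_of_dvd (map_dvd (Lam i) h) (Lam_ne_zero i hg)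

end primes

section smooth

variable {K : Type} [Field K] [CharZero K] {n : ℕ} {f : MvPolynomial (Fin n) K}

omit [CharZero K] in
theorem res_univ (z : Fin n → K) (g : MvPolynomial (Fin n) K) : res Finset.univ z g = g := by
  unfold Pool.Agent.Q224.TT.res
  simp

omit [CharZero K] in
theorem deg_three (hf : ∀ j, f.degreeOf j ≤ 4) (hs : SmoothN f) (i : Fin n) :
    3 ≤ (Lam i f).natDegree := by
  by_contra hcon
  exact Pool.Agent.Q224.TT.no_inf' f hf hs Finset.univ 0 (Finset.mem_univ i)
    (by rw [res_univ]; omega) (fun k hk => absurd (Finset.mem_univ k) hk)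

omit [CharZero K] in
theorem ne_zero (hf : ∀ j, f.degreeOf j ≤ 4) (hs : SmoothN f) (i : Fin n) : f ≠ 0 := by
  rintro rfl
  have := deg_three hf hs i
  rw [map_zero, Polynomial.natDegree_zero] at this
  omega

theorem sqfree (hf : ∀ j, f.degreeOf j ≤ 4) (hs : SmoothN f) (hf0 : f ≠ 0) : Squarefree f := by
  have : Infinite K := CharZero.infinite K
  rw [squarefree_iff_irreducible_sq_not_dvd_of_ne_zero hf0]
  intro p hp hpp
  have hp' : Prime p := UniqueFactorizationMonoid.irreducible_iff_prime.1 hp
  obtain ⟨i, hi⟩ := exists_var hp'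
  obtain ⟨y, hy⟩ := Pool.Agent.Q224.TT.exists_zero' p i hi
  obtain ⟨s, hsp⟩ := hpp
  refine Pool.Agent.Q224.TT.no_aff f hf hs y ?_ ?_
  · rw [hsp, map_mul, map_mul, hy, zero_mul, zero_mul]
  · intro l
    rw [hsp, Derivation.leibniz, Derivation.leibniz]
    simp only [smul_eq_mul, map_mul, map_add, hy]
    ring

/-- a prime factor which involves `X i` does not divide the derivative with respect to `X i` -/
theorem not_dvd_pderiv (hf : ∀ j, f.degreeOf j ≤ 4) (hs : SmoothN f) (hf0 : f ≠ 0) (i : Fin n)
    {p : MvPolynomial (Fin n) K} (hp : Prime p) (hpf : p ∣ f) (hpi : (Lam i p).natDegree ≠ 0) :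
    ¬ p ∣ pderiv i f := by
  intro hd
  obtain ⟨s, rfl⟩ := hpf
  rw [Derivation.leibniz, smul_eq_mul, smul_eq_mul] at hd
  have h1 : p ∣ s * pderiv i p := (dvd_add_right (dvd_mul_right p _)).1 hd
  rcases hp.dvd_or_dvd h1 with h2 | h2
  · exact hp.not_isUnit (sqfree hf hs hf0 p (mul_dvd_mul_left p h2))
  · have h3 : Polynomial.derivative (Lam i p) ≠ 0 := by
      intro h4
      exact hpi (Polynomial.derivative_eq_zero.1 h4)
    have h4 := map_dvd (Lam i) h2
    rw [Lam_pderiv] at h4
    have h5 := Polynomial.natDegree_le_of_dvd h4 h3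
    have h6 := Polynomial.natDegree_derivative_lt hpi
    omega

/-- `f` and its derivative have no common factors of positive degree -/
theorem common (hf : ∀ j, f.degreeOf j ≤ 4) (hs : SmoothN f) (hf0 : f ≠ 0) (i : Fin n)
    (P : Polynomial (MvPolynomial (Fin n) K)) (hP : Prime P) (h1 : P ∣ Lam i f)
    (h2 : P ∣ Polynomial.derivative (Lam i f)) : P.natDegree = 0 := by
  by_contra hne
  have h3 : swp i P ∣ Polynomial.C f := by
    have := map_dvd (swp i) h1
    rwa [← swp_C, swp_swp] at this
  have h4 : swp i P ∣ Polynomial.C (pderiv i f) := by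
    have := map_dvd (swp i) h2
    rwa [← Lam_pderiv, ← swp_C, swp_swp] at this
  have h5 := Polynomial.natDegree_le_of_dvd h3 (Polynomial.C_ne_zero.2 hf0)
  rw [Polynomial.natDegree_C, Nat.le_zero] at h5
  obtain ⟨p, hp⟩ : ∃ p, swp i P = Polynomial.C p := ⟨_, Polynomial.eq_C_of_natDegree_eq_zero h5⟩
  have h6 : P = Lam i p := by
    rw [← swp_C, ← hp, swp_swp]
  have h7 : Prime p := by
    let e : Polynomial (MvPolynomial (Fin n) K) ≃+* Polynomial (MvPolynomial (Fin n) K) :=
      RingEquiv.ofRingHom (swp i) (swp i) (RingHom.ext (swp_swp i)) (RingHom.ext (swp_swp i))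
    have h8 : Prime (e P) := (MulEquiv.prime_iff e.toMulEquiv).2 hP
    have h9 : e P = Polynomial.C p := hp
    rw [h9] at h8
    exact Polynomial.prime_C_iff.1 h8
  rw [hp] at h3 h4
  refine not_dvd_pderiv hf hs hf0 i h7 (C_dvd_C' h3) ?_ (C_dvd_C' h4)
  rw [← h6]
  exact hne

theorem degreeOf_map_le'' {B : Type} [Field B] (φ : K →+* B) (hf : ∀ j, f.degreeOf j ≤ 4) (j : Fin n) :
    (map φ f).degreeOf j ≤ 4 := (Pool.Agent.Q224.TT.degreeOf_map_le' f j φ).trans (hf j)

/-- on the general line in the direction `i` the curve has genus one -/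
theorem ex_genus (hf : ∀ j, f.degreeOf j ≤ 4) (hs : SmoothN f) (i : Fin n) :
    ∃ A : MvPolynomial (Fin n) K, A ≠ 0 ∧ ∀ (B : Type) [Field B] [CharZero B] (φ : K →+* B)
      (y : Fin n → B), eval y (map φ A) ≠ 0 → GenusOne (line (map φ f) y i) := by
  have : Infinite K := CharZero.infinite K
  have hf0 := ne_zero hf hs i
  have hL := Lam_ne_zero i hf0
  obtain ⟨a, b, D, hD, hab⟩ := bezout (Lam i f) (Polynomial.derivative (Lam i f)) hL
    (fun P hP => common hf hs hf0 i P hP)
  refine ⟨D * (Lam i f).leadingCoeff, mul_ne_zero hD (Polynomial.leadingCoeff_ne_zero.2 hL),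
    fun B _ _ φ y hy => ?_⟩
  rw [map_mul, map_mul] at hy
  have hy1 := left_ne_zero_of_mul hy
  have hy2 := right_ne_zero_of_mul hy
  set ψ := (eval y).comp (map φ) with hψ
  have h1 := congrArg (Polynomial.map ψ) hab
  rw [Polynomial.map_add, Polynomial.map_mul, Polynomial.map_mul, ← Polynomial.derivative_map,
    ← lin_eq_map, Polynomial.map_C] at h1
  have hsep : (lin y i (map φ f)).Separable := by
    refine ⟨Polynomial.C (ψ D)⁻¹ * a.map ψ, Polynomial.C (ψ D)⁻¹ * b.map ψ, ?_⟩
    have h2 : Polynomial.C (ψ D)⁻¹ * Polynomial.C (ψ D) = 1 := by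
      rw [← Polynomial.C_mul, inv_mul_cancel₀ (show ψ D ≠ 0 from hy1), Polynomial.C_1]
    rw [← h2, ← h1]
    ring
  have hdeg : (lin y i (map φ f)).natDegree = (Lam i f).natDegree := by
    rw [lin_eq_map]
    exact Polynomial.natDegree_map_of_leadingCoeff_ne_zero _ hy2
  have hf' := degreeOf_map_le'' φ hf
  have h4 := natDegree_lin y i (map φ f) (hf' i)
  have hq : lin y i (map φ f) = qpol (Pool.Agent.Q35.TT.lc (map φ f) (af y) i 0)
      (Pool.Agent.Q35.TT.lc (map φ f) (af y) i 1) (Pool.Agent.Q35.TT.lc (map φ f) (af y) i 2)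
      (Pool.Agent.Q35.TT.lc (map φ f) (af y) i 3) (Pool.Agent.Q35.TT.lc (map φ f) (af y) i 4) := by
    rw [lc_af, lc_af, lc_af, lc_af, lc_af]
    conv_lhs => rw [(lin y i (map φ f)).as_sum_range_C_mul_X_pow' (n := 5) (by omega)]
    simp [Finset.sum_range_succ, qpol]
  rw [genus_iff hf']
  refine dc_ne_zero (by rw [← hq]; exact hsep) ?_
  rw [← hq, hdeg]
  exact deg_three hf hs i

omit [CharZero K] in
/-- the line through `y`, with the origin at `y` -/
theorem line_comp (g : MvPolynomial (Fin n) K) (y : Fin n → K) (i : Fin n) :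
    line g y i = (lin y i g).comp (Polynomial.X + Polynomial.C (y i)) := by
  unfold line Pool.Agent.Q224.TT.lin
  rw [← Polynomial.coe_compRingHom_apply]
  have h : ((aeval (fun k => Polynomial.C (y k) +
        Polynomial.C ((Pi.single i 1 : Fin n → K) k) * Polynomial.X) :
        MvPolynomial (Fin n) K →ₐ[K] Polynomial K) : MvPolynomial (Fin n) K →+* Polynomial K) =
      (Polynomial.compRingHom (Polynomial.X + Polynomial.C (y i))).comp
        ((aeval (fun l => if l = i then Polynomial.X else Polynomial.C (y l)) :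
        MvPolynomial (Fin n) K →ₐ[K] Polynomial K) : MvPolynomial (Fin n) K →+* Polynomial K) := by
    apply MvPolynomial.ringHom_ext
    · intro a
      simp
    · intro l
      by_cases hl : l = i
      · subst hl
        simp
        ring
      · simp [hl]
  exact RingHom.congr_fun h g

omit [CharZero K] in
theorem lin_dvd_of_line {g h : MvPolynomial (Fin n) K} {y : Fin n → K} {i : Fin n}
    (hd : line g y i ∣ line h y i) : lin y i g ∣ lin y i h := by
  rw [line_comp, line_comp] at hd
  have h1 := map_dvd (Polynomial.compRingHom (Polynomial.X - Polynomial.C (y i))) hd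
  simpa [Polynomial.comp_assoc] using h1

/-- a common zero of two factors -/
theorem common_zero {p q : MvPolynomial (Fin n) K} {i j : Fin n} (hij : i ≠ j)
    (hp : (Lam j p).natDegree ≠ 0) (hp' : (Lam i p).natDegree = 0)
    (hq : (Lam i q).natDegree ≠ 0) (hq' : (Lam j q).natDegree = 0) :
    ∃ y : Fin n → AlgebraicClosure K, aeval y p = 0 ∧ aeval y q = 0 := by
  have : Infinite K := CharZero.infinite K
  have h1 : (Lam j p).leadingCoeff ≠ 0 := by
    intro h
    rw [Polynomial.leadingCoeff_eq_zero] at h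
    rw [h, Polynomial.natDegree_zero] at hp
    exact hp rfl
  have h2 : (Lam i q).leadingCoeff ≠ 0 := by
    intro h
    rw [Polynomial.leadingCoeff_eq_zero] at h
    rw [h, Polynomial.natDegree_zero] at hq
    exact hq rfl
  obtain ⟨y0, hy0⟩ := exists_eval _ (mul_ne_zero h1 h2)
  rw [map_mul] at hy0
  have hroot : ∀ (k : Fin n) (g : MvPolynomial (Fin n) K), (Lam k g).natDegree ≠ 0 →
      eval y0 (Lam k g).leadingCoeff ≠ 0 → ∃ t : AlgebraicClosure K,
        aeval (Function.update (fun l => algebraMap K (AlgebraicClosure K) (y0 l)) k t) g = 0 := by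
    intro k g hg hy
    have h3 : (lin y0 k g).natDegree = (Lam k g).natDegree := by
      rw [← map_Lam]
      exact Polynomial.natDegree_map_of_leadingCoeff_ne_zero _ hy
    have h4 : ((lin y0 k g).map (algebraMap K (AlgebraicClosure K))).degree ≠ 0 := by
      intro h
      rw [Polynomial.degree_map] at h
      have h5 := Polynomial.natDegree_eq_of_degree_eq_some h
      rw [h3] at h5
      exact hg h5
    obtain ⟨t, ht⟩ := IsAlgClosed.exists_root _ h4
    refine ⟨t, ?_⟩
    rw [← Pool.Agent.Q224.TT.lin_map, Polynomial.IsRoot.def, eval_lin, eval_map, ← aeval_def] at ht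
    exact ht
  obtain ⟨a, ha⟩ := hroot j p hp (left_ne_zero_of_mul hy0)
  obtain ⟨b, hb⟩ := hroot i q hq (right_ne_zero_of_mul hy0)
  refine ⟨Function.update (Function.update (fun l => algebraMap K (AlgebraicClosure K) (y0 l)) j a)
    i b, ?_, ?_⟩
  · rw [aeval_update_of_deg i p hp', ha]
  · rw [Function.update_comm hij.symm, aeval_update_of_deg j q hq', hb]

/-- the general line in the direction `i` is not special for the direction `j` -/
theorem ex_special (hf : ∀ j, f.degreeOf j ≤ 4) (hs : SmoothN f) {i j : Fin n} (hij : i ≠ j) :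
    ∃ A : MvPolynomial (Fin n) K, A ≠ 0 ∧ ∀ (B : Type) [Field B] [CharZero B] (φ : K →+* B)
      (y : Fin n → B), eval y (map φ A) ≠ 0 →
        ¬ line (map φ f) y i ∣ line (pderiv j (map φ f)) y i := by
  have : Infinite K := CharZero.infinite K
  have hf0 := ne_zero hf hs i
  have hLf := Lam_ne_zero i hf0
  set L := (Lam i f).leadingCoeff with hL
  have hL0 : L ≠ 0 := Polynomial.leadingCoeff_ne_zero.2 hLf
  have hLi : (Lam i L).natDegree = 0 := natDegree_Lam_coeff i f _
  obtain ⟨k, hk⟩ : ∃ k, L * (Lam i (pderiv j f)).coeff k - pderiv j L * (Lam i f).coeff k ≠ 0 := by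
    by_contra hcon
    push Not at hcon
    have h1 : Polynomial.C L * Lam i (pderiv j f) = Polynomial.C (pderiv j L) * Lam i f := by
      ext1 k
      rw [Polynomial.coeff_C_mul, Polynomial.coeff_C_mul]
      exact sub_eq_zero.1 (hcon k)
    have h2 : L * pderiv j f = pderiv j L * f := by
      have h3 := congrArg (Polynomial.eval (X i)) h1
      rw [Polynomial.eval_mul, Polynomial.eval_mul, Polynomial.eval_C, Polynomial.eval_C, eval_Lam,
        eval_Lam] at h3
      exact h3
    -- a prime factor which involves `X j` divides `L`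
    have h4 : ∀ p, Prime p → p ∣ f → (Lam j p).natDegree ≠ 0 → (Lam i p).natDegree = 0 := by
      intro p hp hpf hpj
      have h5 : p ∣ L * pderiv j f := by
        rw [h2]
        exact hpf.mul_left _
      rcases hp.dvd_or_dvd h5 with h6 | h6
      · have h7 := natDegree_Lam_of_dvd i hL0 h6
        omega
      · exact absurd h6 (not_dvd_pderiv hf hs hf0 j hp hpf hpj)
    obtain ⟨p, hp, hpf, hpj⟩ := exists_prime_of_deg j f hf0 (by have := deg_three hf hs j; omega)
    obtain ⟨q, hq, hqf, hqi⟩ := exists_prime_of_deg i f hf0 (by have := deg_three hf hs i; omega)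
    have hpi := h4 p hp hpf hpj
    have hqj : (Lam j q).natDegree = 0 := by
      by_contra hne
      exact hqi (h4 q hq hqf hne)
    obtain ⟨s, hs'⟩ := hpf
    have hqs : q ∣ s := by
      rw [hs'] at hqf
      rcases hq.dvd_or_dvd hqf with h6 | h6
      · have h7 := natDegree_Lam_of_dvd i hp.ne_zero h6
        omega
      · exact h6
    obtain ⟨r, hr⟩ := hqs
    obtain ⟨y, hy1, hy2⟩ := common_zero hij hpj hpi hqi hqj
    refine Pool.Agent.Q224.TT.no_aff f hf hs y ?_ ?_
    · rw [hs', map_mul, hy1, zero_mul]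
    · intro l
      rw [hs', hr, Derivation.leibniz, Derivation.leibniz]
      simp only [smul_eq_mul, map_mul, map_add, hy1, hy2]
      ring
  refine ⟨L * (L * (Lam i (pderiv j f)).coeff k - pderiv j L * (Lam i f).coeff k),
    mul_ne_zero hL0 hk, fun B _ _ φ y hy hd => ?_⟩
  rw [map_mul, map_mul] at hy
  have hy1 := left_ne_zero_of_mul hy
  have hy2 := right_ne_zero_of_mul hy
  obtain ⟨c, hc⟩ := lin_dvd_of_line hd
  have hdeg : (lin y i (map φ f)).natDegree = (Lam i f).natDegree := by
    rw [lin_eq_map]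
    exact Polynomial.natDegree_map_of_leadingCoeff_ne_zero _ hy1
  have hne : lin y i (map φ f) ≠ 0 := by
    intro h
    have := deg_three hf hs i
    rw [h, Polynomial.natDegree_zero] at hdeg
    omega
  rw [MvPolynomial.pderiv_map, lin_eq_map, lin_eq_map φ y i f] at hc
  rw [lin_eq_map] at hdeg hne
  set ψ := (eval y).comp (map φ) with hψ
  have hdeg2 : ((Lam i (pderiv j f)).map ψ).natDegree ≤ (Lam i f).natDegree := by
    refine Polynomial.natDegree_map_le.trans ?_
    rw [Polynomial.natDegree_le_iff_coeff_eq_zero]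
    intro N hN
    rw [← pderiv_coeff_Lam hij.symm, Polynomial.coeff_eq_zero_of_natDegree_lt hN, map_zero]
  obtain ⟨c0, hc0⟩ : ∃ c0 : B, c = Polynomial.C c0 := by
    by_cases hcz : c = 0
    · exact ⟨0, by rw [hcz, Polynomial.C_0]⟩
    · refine ⟨_, Polynomial.eq_C_of_natDegree_eq_zero ?_⟩
      rw [hc, Polynomial.natDegree_mul hne hcz, hdeg] at hdeg2
      omega
  have hcoef : ∀ m, ψ ((Lam i (pderiv j f)).coeff m) = c0 * ψ ((Lam i f).coeff m) := by
    intro m
    rw [← Polynomial.coeff_map, ← Polynomial.coeff_map, hc, hc0, mul_comm, Polynomial.coeff_C_mul]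
  apply hy2
  have h5 : pderiv j L = (Lam i (pderiv j f)).coeff (Lam i f).natDegree :=
    pderiv_coeff_Lam hij.symm f _
  change ψ (L * (Lam i (pderiv j f)).coeff k - pderiv j L * (Lam i f).coeff k) = 0
  rw [map_sub, map_mul, map_mul, h5, hcoef, hcoef, hL, Polynomial.leadingCoeff]
  ring

/-- **The general point.** -/
theorem ex_general (hf : ∀ j, f.degreeOf j ≤ 4) (hs : SmoothN f) :
    ∃ h : MvPolynomial (Fin n) K, h ≠ 0 ∧ ∀ (B : Type) [Field B] [CharZero B] (φ : K →+* B)
      (y : Fin n → B), eval y (map φ h) ≠ 0 →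
      (∀ i, GenusOne (line (map φ f) y i)) ∧ ∀ i j, i ≠ j → NotSpecial (map φ f) y i j := by
  classical
  choose A hA0 hA using fun i => ex_genus hf hs i
  have hB : ∀ q : Fin n × Fin n, ∃ A : MvPolynomial (Fin n) K, A ≠ 0 ∧
      (q.1 ≠ q.2 → ∀ (B : Type) [Field B] [CharZero B] (φ : K →+* B) (y : Fin n → B),
        eval y (map φ A) ≠ 0 → ¬ line (map φ f) y q.1 ∣ line (pderiv q.2 (map φ f)) y q.1) := by
    intro q
    by_cases h : q.1 = q.2
    · exact ⟨1, one_ne_zero, fun h' => absurd h h'⟩
    · obtain ⟨B, h1, h2⟩ := ex_special hf hs h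
      exact ⟨B, h1, fun _ => h2⟩
  choose B hB0 hB1 using hB
  refine ⟨(∏ i, A i) * ∏ q, B q, mul_ne_zero (Finset.prod_ne_zero_iff.2 fun i _ => hA0 i)
    (Finset.prod_ne_zero_iff.2 fun q _ => hB0 q), fun E _ _ φ y hy => ?_⟩
  rw [map_mul, map_mul, map_prod, map_prod, map_prod, map_prod] at hy
  have h1 : ∀ i, GenusOne (line (map φ f) y i) := fun i =>
    hA i E φ y (Finset.prod_ne_zero_iff.1 (left_ne_zero_of_mul hy) i (Finset.mem_univ i))
  refine ⟨h1, fun i j hij => ⟨hB1 (i, j) hij E φ y
    (Finset.prod_ne_zero_iff.1 (right_ne_zero_of_mul hy) (i, j) (Finset.mem_univ _)), 0, ?_⟩⟩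
  have h2 : (fun a => y a + 0 * (Pi.single i 1 : Fin n → E) a) = y := by
    funext a
    rw [zero_mul, add_zero]
  rw [h2]
  exact h1 j

end smooth

end Pool.Agent.K6.H54.CY
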