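import Pool.Agent.Q35.ZC.Ct
import Pool.Agent.Q35.ZC.All2

/-!
# Calabi-Yau double covers `w² = e f(x_1, …, x_n)`: lines through a rational point (helper54)

The arguments follow `Pool.Agent.Q222.TT.Opn` (helper222) and `Pool.Agent.Q35.ZC.K3` (helper35), where
`n = 2`.
-/

set_option autoImplicit false
set_option linter.unusedSectionVars false

open MvPolynomial Pool.Agent.Y720.MZ

namespace Pool.Agent.K6.H54.CY

open Pool.Agent.Q35.TT (SmoothN TorN Tor TorT lc af bq tay ND S_TWS)
open Pool.Agent.Q190.TT (lc_smul bq_smul)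
open Pool.Agent.Q35.ZC

section lines

variable {K : Type} [Field K] [CharZero K] {n : ℕ}

omit [CharZero K] in
theorem eval_lc {f : MvPolynomial (Fin n) K} (hf : ∀ j, f.degreeOf j ≤ 4) (y : Fin n → K)
    (i : Fin n) : eval y f = bq (lc f (af y) i) ![1, y i] := by
  rw [Pool.Agent.Q192.TT.bq_lc f hf, Function.update_eq_self]

omit [CharZero K] in
theorem lc_line (f : MvPolynomial (Fin n) K) (y y' : Fin n → K) (i : Fin n)
    (h : ∀ j, j ≠ i → y j = y' j) : lc f (af y) i = lc f (af y') i := by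
  funext k
  unfold Pool.Agent.Q35.TT.lc
  refine Finset.sum_congr rfl fun m _ => ?_
  rw [Pool.Agent.Q192.TT.mo_af, Pool.Agent.Q192.TT.mo_af]
  congr 1
  exact Finset.prod_congr rfl fun j hj => by rw [h j (Finset.ne_of_mem_erase hj)]

theorem rst_tay {f : MvPolynomial (Fin n) K} (hf : ∀ j, f.degreeOf j ≤ 4) (z : Fin n → K)
    (i : Fin n) :
    rst f z (Pi.single i 1) = qpol (bq (lc f (af z) i) ![1, z i]) (tay (lc f (af z) i) (z i) 0)
      (tay (lc f (af z) i) (z i) 1) (tay (lc f (af z) i) (z i) 2) (tay (lc f (af z) i) (z i) 3) := by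
  refine Polynomial.funext fun t => ?_
  rw [rst_eval, eval_qpol, eval_lc hf _ i, lc_line f (z + t • (Pi.single i 1 : Fin n → K)) z i]
  · have h1 : (z + t • (Pi.single i 1 : Fin n → K)) i = z i + t := by simp
    rw [h1]
    simp only [bq, tay, Matrix.cons_val_zero, Matrix.cons_val_one, Matrix.cons_val]
    ring
  · intro j hj
    simp [hj]

theorem rst_coef {f : MvPolynomial (Fin n) K} (hf : ∀ j, f.degreeOf j ≤ 4) (z : Fin n → K)
    (i : Fin n) :
    cq f z (Pi.single i 1) 0 = tay (lc f (af z) i) (z i) 0 ∧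
    cq f z (Pi.single i 1) 1 = tay (lc f (af z) i) (z i) 1 ∧
    cq f z (Pi.single i 1) 2 = tay (lc f (af z) i) (z i) 2 ∧
    cq f z (Pi.single i 1) 3 = tay (lc f (af z) i) (z i) 3 := by
  have h1 := rst_qpol (f := f) (z := z) (e := Pi.single i 1) (deg_rst (hf i) z)
  rw [rst_tay hf z i] at h1
  obtain ⟨-, h2, h3, h4, h5⟩ := qpol_inj h1
  exact ⟨h2.symm, h3.symm, h4.symm, h5.symm⟩

/-- the discriminant -/
theorem Tq_lc {f : MvPolynomial (Fin n) K} (hf : ∀ j, f.degreeOf j ≤ 4) (z : Fin n → K)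
    (i : Fin n) :
    Tq f (Pi.single i 1) z = dc (lc f (af z) i 0) (lc f (af z) i 1) (lc f (af z) i 2)
      (lc f (af z) i 3) (lc f (af z) i 4) := by
  obtain ⟨h0, h1, h2, h3⟩ := rst_coef hf z i
  rw [Pool.Agent.Q275.KC.Tq_dc, h0, h1, h2, h3, eval_lc hf z i,
    ← dc_shift (z i) (lc f (af z) i 0)]
  simp only [bq, tay, Matrix.cons_val_zero, Matrix.cons_val_one, Matrix.cons_val]
  congr 1 <;> ring

theorem genus_iff {f : MvPolynomial (Fin n) K} (hf : ∀ j, f.degreeOf j ≤ 4) (z : Fin n → K)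
    (i : Fin n) :
    GenusOne (line f z i) ↔ dc (lc f (af z) i 0) (lc f (af z) i 1) (lc f (af z) i 2)
      (lc f (af z) i 3) (lc f (af z) i 4) ≠ 0 := by
  rw [genusOne_iff, Tq_lc hf]

theorem moves_of {g : MvPolynomial (Fin n) K} (hg : ∀ j, g.degreeOf j ≤ 4) {z : Fin n → K} {w : K}
    {i : Fin n} (hw : w ≠ 0) (hon : w ^ 2 = eval z g) (hG : GenusOne (line g z i))
    (hI : ∀ N : ℕ, N ≠ 0 → ¬ Tor (lc g (af z) i) (z i) w N) : Moves g (z, w) i := by
  refine ⟨hG, ?_⟩
  have hT := genusOne_iff.1 hG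
  have h1 : IOt (th g (Pi.single i 1) z w) := by
    refine ⟨?_, ?_⟩
    · let : DecidableEq K := Classical.decEq K
      rw [Tq_eq (show onX g z w from hon)]
      exact hT
    · intro h n hn h0
      refine hI n hn ⟨hw, ?_, ?_, ?_⟩
      · rw [hon, eval_lc hg z i]
      · rw [← Tq_lc hg z i]
        exact hT
      · obtain ⟨e0, e1, e2, e3⟩ := rst_coef hg z i
        rw [← e0, ← e1, ← e2, ← e3]
        exact ⟨h, h0⟩
  exact h1.2

omit [CharZero K] in
theorem line_twist (e : K) (g : MvPolynomial (Fin n) K) (x : Fin n → K) (i : Fin n) :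
    line (C e * g) x i = Polynomial.C e * line g x i := by
  rw [line, map_mul, aeval_C]
  rfl

omit [CharZero K] in
theorem special_twist {e : K} (he : e ≠ 0) {g : MvPolynomial (Fin n) K} {x : Fin n → K}
    {i j : Fin n} (h : NotSpecial g x i j) : NotSpecial (C e * g) x i j := by
  obtain ⟨h1, u, h2⟩ := h
  refine ⟨?_, u, ?_⟩
  · rw [pderiv_C_mul, line_twist, line_twist]
    intro h3
    apply h1
    have hu : IsUnit (Polynomial.C e) := Polynomial.isUnit_C.2 he.isUnit
    exact (hu.dvd_mul_left.1 ((dvd_mul_left _ _).trans h3))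
  · rw [line_twist]
    exact Pool.Agent.Q35.ZC.genus_twist he h2

end lines

/-- The point moves in one direction, which is not special for the other ones. -/
def Good {K : Type} [Field K] {n : ℕ} (f : MvPolynomial (Fin n) K) (P : (Fin n → K) × K) : Prop :=
  ∃ i, Moves f P i ∧ ∀ j, j ≠ i → NotSpecial f P.1 i j

/-- Points for which one direction serves for all. -/
theorem good_dir (h2 : S_TWS) {K : Type} [Field K] [CharZero K] {n : ℕ}
    {f : MvPolynomial (Fin n) K} (hf : ∀ j, f.degreeOf j ≤ 4) {e : K} (he : e ≠ 0) {z : Fin n → K}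
    {w : K} (hw : w ≠ 0) (hon : w ^ 2 = eval z (C e * f)) {i : Fin n} (hi : ¬ TorN f z i)
    (hG : GenusOne (line f z i)) (hN : ∀ j, j ≠ i → NotSpecial f z i j) :
    Good (C e * f) (z, w) := by
  have hg : ∀ j, (C e * f).degreeOf j ≤ 4 := fun j => (degreeOf_C_mul_le f j e).trans (hf j)
  have hG' : GenusOne (line (C e * f) z i) := by
    rw [line_twist]
    exact Pool.Agent.Q35.ZC.genus_twist he hG
  have hI : ∀ N : ℕ, N ≠ 0 → ¬ Tor (lc (C e * f) (af z) i) (z i) w N := by
    intro N hN h5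
    rw [lc_smul f e he, h2 K _ e _ _ _ he] at h5
    exact hi ⟨N, hN, h5.2.2⟩
  exact ⟨i, moves_of hg hw hon hG' hI, fun j hj => special_twist he (hN j hj)⟩

theorem Good.near (hS : S_STEP) {K : Type} [Field K] [NumberField K] {n : ℕ}
    {g : MvPolynomial (Fin n) K} (hg : ∀ j, g.degreeOf j ≤ 4) {P : (Fin n → K) × K}
    (hw : P.2 ≠ 0) (hon : OnCover g P) (h : Good g P) : Near g (Odds g P) P := by
  intro ι _ _ p _ hinj σ
  obtain ⟨i, hi, hN⟩ := h
  exact Pool.Agent.Q35.ZC.near hS hg (P := P) hon hw (fun j => ⟨i, hi, by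
    by_cases h : i = j
    · exact Or.inl h
    · exact Or.inr (hN j (Ne.symm h))⟩) hinj σ

section extension

variable {K K' : Type} [Field K] [CharZero K] [Field K'] [CharZero K'] (ψ : K →+* K') {n : ℕ}

omit [CharZero K] [CharZero K'] in
theorem onCover_map {g : MvPolynomial (Fin n) K} {P : (Fin n → K) × K} (h : OnCover g P) :
    OnCover (map ψ g) (image ψ P) := by
  rw [OnCover, eval_image, ← h, map_pow]
  rfl

theorem moves_map {g : MvPolynomial (Fin n) K} {P : (Fin n → K) × K} {i : Fin n}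
    (hP : OnCover g P) (h : Moves g P i) : Moves (map ψ g) (image ψ P) i := by
  refine ⟨?_, ?_⟩
  · change GenusOne (line (map ψ g) (fun j => ψ (P.1 j)) i)
    rw [line_map]
    exact genus_map ψ h.1
  · have h2 := io_map ψ (io_of (show OnCover g (P.1, P.2) from hP) h)
    rw [← th_map, Pool.Agent.Q35.ZC.single_map] at h2
    exact h2.2

/-- The condition does not change under extensions of the base field. -/
theorem Good.map {g : MvPolynomial (Fin n) K} {P : (Fin n → K) × K} (hP : OnCover g P)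
    (h : Good g P) : Good (MvPolynomial.map ψ g) (image ψ P) := by
  obtain ⟨i, hi, hN⟩ := h
  exact ⟨i, moves_map ψ hP hi, fun j hj => special_map ψ (hN j hj)⟩

omit [CharZero K] [CharZero K'] in
/-- Central points stay central. -/
theorem ct_map (hM : S_MAP) {g : MvPolynomial (Fin n) K} {P : (Fin n → K) × K} (hP : P ∈ CT g) :
    image ψ P ∈ CT (MvPolynomial.map ψ g) := by
  obtain ⟨hP, N, hN, h⟩ := hP
  refine ⟨onCover_map ψ hP, N, hN, ?_⟩
  let : Algebra K (AlgebraicClosure K') := ((toC K').comp ψ).toAlgebra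
  let χ : AlgebraicClosure K →ₐ[K] AlgebraicClosure K' := IsAlgClosed.lift
  have hχ : (χ : AlgebraicClosure K →+* AlgebraicClosure K').comp (toC K) = (toC K').comp ψ :=
    RingHom.ext fun x => χ.commutes x
  have h1 := push_mem hM (χ : AlgebraicClosure K →+* AlgebraicClosure K') h
  rw [map_nsmul, push_dl, MvPolynomial.map_map, hχ, ← MvPolynomial.map_map] at h1
  have h2 : (fun k => (χ : AlgebraicClosure K →+* AlgebraicClosure K') ((image (toC K) P).1 k)) =
      (image (toC K') (image ψ P)).1 := by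
    funext k
    exact RingHom.congr_fun hχ (P.1 k)
  have h3 : (χ : AlgebraicClosure K →+* AlgebraicClosure K') (image (toC K) P).2 =
      (image (toC K') (image ψ P)).2 := RingHom.congr_fun hχ P.2
  rw [h2, h3] at h1
  exact h1

end extension

end Pool.Agent.K6.H54.CY
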