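import Pool.Agent.K6.H54.CY.Der
import Pool.Agent.Q182.TT.Chf

/-!
# Surfaces `ℙ¹ × ℙ¹ × {c}`: the general one meets a smooth divisor in a smooth curve (helper54)
-/

set_option autoImplicit false
set_option linter.unusedSectionVars false

open MvPolynomial

namespace Pool.Agent.K6.H54.CY

open Pool.Agent.Q35.TT (Hom4 SmoothF SmoothN ch pt)

section sub

variable {K : Type} [Field K] {n : ℕ} {E : Type} [Field E] [Algebra K E]

open Classical in
/-- The point of `(ℙ¹)ⁿ` with the coordinates `x` in the directions `i, j` and `c` in the others. -/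
noncomputable def ext {W : Type} [Field W] (c : Fin n → W) (i j : Fin n) (x : Fin 2 × Fin 2 → W)
    (p : Fin n × Fin 2) : W :=
  if p.1 = i then x (0, p.2) else if p.1 = j then x (1, p.2) else if p.2 = 0 then 1 else c p.1

open Classical in
/-- The restriction of a form to the surface with the coordinates `c` in the directions `≠ i, j`. -/
noncomputable def sub (c : Fin n → E) (i j : Fin n) :
    MvPolynomial (Fin n × Fin 2) K →ₐ[K] MvPolynomial (Fin 2 × Fin 2) E :=
  aeval (fun p => if p.1 = i then X (0, p.2) else if p.1 = j then X (1, p.2)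
    else if p.2 = 0 then 1 else C (c p.1))

theorem aeval_sub {W : Type} [Field W] [Algebra K W] [Algebra E W] [IsScalarTower K E W]
    (c : Fin n → E) (i j : Fin n) (x : Fin 2 × Fin 2 → W) (F : MvPolynomial (Fin n × Fin 2) K) :
    aeval x (sub c i j F) = aeval (ext (fun l => algebraMap E W (c l)) i j x) F := by
  have h : ((aeval x : MvPolynomial (Fin 2 × Fin 2) E →ₐ[E] W).restrictScalars K).comp
      (sub c i j) = aeval (ext (fun l => algebraMap E W (c l)) i j x) := by
    apply MvPolynomial.algHom_ext
    intro p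
    rw [AlgHom.comp_apply, aeval_X]
    change aeval x (sub c i j (X p)) = _
    unfold sub ext
    rw [aeval_X]
    split_ifs <;> simp
  exact AlgHom.congr_fun h F

theorem pderiv_sub_fst (c : Fin n → E) {i j : Fin n} (hij : i ≠ j) (b : Fin 2)
    (F : MvPolynomial (Fin n × Fin 2) K) :
    pderiv (0, b) (sub c i j F) = sub c i j (pderiv (i, b) F) := by
  induction F using MvPolynomial.induction_on with
  | C a =>
    rw [pderiv_C, map_zero]
    unfold sub
    rw [algHom_C, MvPolynomial.algebraMap_apply, pderiv_C]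
  | add p q hp hq => rw [map_add, map_add, map_add, map_add, hp, hq]
  | mul_X p q hp =>
    rw [map_mul, pderiv_mul, pderiv_mul, map_add, map_mul, map_mul, hp]
    congr 2
    obtain ⟨l, b'⟩ := q
    unfold sub
    rw [aeval_X]
    by_cases hl : l = i
    · subst hl
      rw [if_pos rfl]
      by_cases hb : b' = b
      · subst hb
        rw [pderiv_X_self, pderiv_X_self, map_one]
      · rw [pderiv_X_of_ne (fun h => hb (congrArg Prod.snd h)),
          pderiv_X_of_ne (fun h => hb (congrArg Prod.snd h)), map_zero]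
    · rw [if_neg hl, pderiv_X_of_ne (fun h => hl (congrArg Prod.fst h)), map_zero]
      by_cases hl2 : l = j
      · rw [if_pos hl2, pderiv_X_of_ne (fun h => by
          exact absurd (show (1 : Fin 2) = 0 from congrArg Prod.fst h) (by decide))]
      · rw [if_neg hl2]
        dsimp only
        split_ifs
        · exact pderiv_one
        · exact pderiv_C

theorem pderiv_sub_snd (c : Fin n → E) {i j : Fin n} (hij : i ≠ j) (b : Fin 2)
    (F : MvPolynomial (Fin n × Fin 2) K) :
    pderiv (1, b) (sub c i j F) = sub c i j (pderiv (j, b) F) := by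
  induction F using MvPolynomial.induction_on with
  | C a =>
    rw [pderiv_C, map_zero]
    unfold sub
    rw [algHom_C, MvPolynomial.algebraMap_apply, pderiv_C]
  | add p q hp hq => rw [map_add, map_add, map_add, map_add, hp, hq]
  | mul_X p q hp =>
    rw [map_mul, pderiv_mul, pderiv_mul, map_add, map_mul, map_mul, hp]
    congr 2
    obtain ⟨l, b'⟩ := q
    unfold sub
    rw [aeval_X]
    by_cases hl : l = i
    · subst hl
      rw [if_pos rfl, pderiv_X_of_ne (fun h => by
          exact absurd (show (0 : Fin 2) = 1 from congrArg Prod.fst h) (by decide)),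
        pderiv_X_of_ne (fun h => hij (congrArg Prod.fst h)), map_zero]
    · rw [if_neg hl]
      by_cases hl2 : l = j
      · subst hl2
        rw [if_pos rfl]
        by_cases hb : b' = b
        · subst hb
          rw [pderiv_X_self, pderiv_X_self, map_one]
        · rw [pderiv_X_of_ne (fun h => hb (congrArg Prod.snd h)),
            pderiv_X_of_ne (fun h => hb (congrArg Prod.snd h)), map_zero]
      · rw [if_neg hl2, pderiv_X_of_ne (fun h => hl2 (congrArg Prod.fst h)), map_zero]
        dsimp only
        split_ifs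
        · exact pderiv_one
        · exact pderiv_C

theorem hom4_sub (c : Fin n → E) {i j : Fin n} (hij : i ≠ j) {F : MvPolynomial (Fin n × Fin 2) K}
    (hF : Hom4 F) : Hom4 (sub c i j F) := by
  classical
  intro m' hm' a
  have h1 : sub c i j F = ∑ m ∈ F.support, sub c i j (monomial m (coeff m F)) := by
    conv_lhs => rw [F.as_sum]
    rw [map_sum]
  rw [h1] at hm'
  obtain ⟨m, hm, hm2⟩ := Finset.mem_biUnion.1 (MvPolynomial.support_sum hm')
  have h4 := hF m hm
  have h2 : sub c i j (monomial m (coeff m F)) =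
      C (algebraMap K E (coeff m F) * ∏ l ∈ (Finset.univ.erase i).erase j, c l ^ m (l, 1)) *
        (X (0, 0) ^ m (i, 0) * X (0, 1) ^ m (i, 1) * (X (1, 0) ^ m (j, 0) * X (1, 1) ^ m (j, 1))) := by
    unfold sub
    rw [aeval_monomial, Finsupp.prod_fintype _ _ (fun _ => pow_zero _), Fintype.prod_prod_type,
      ← Finset.mul_prod_erase Finset.univ _ (Finset.mem_univ i),
      ← Finset.mul_prod_erase (Finset.univ.erase i) _ (Finset.mem_erase.2 ⟨hij.symm, Finset.mem_univ j⟩)]
    have h5 : ∏ x ∈ (Finset.univ.erase i).erase j, ∏ y : Fin 2,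
        (if (x, y).1 = i then (X (0, (x, y).2) : MvPolynomial (Fin 2 × Fin 2) E)
          else if (x, y).1 = j then X (1, (x, y).2) else if (x, y).2 = 0 then 1
          else C (c (x, y).1)) ^ m (x, y) =
        C (∏ l ∈ (Finset.univ.erase i).erase j, c l ^ m (l, 1)) := by
      rw [map_prod]
      refine Finset.prod_congr rfl fun x hx => ?_
      have hx1 : x ≠ j := Finset.ne_of_mem_erase hx
      have hx2 : x ≠ i := Finset.ne_of_mem_erase (Finset.mem_of_mem_erase hx)
      rw [Fin.prod_univ_two]
      simp [hx1, hx2]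
    rw [h5]
    simp only [Fin.prod_univ_two, if_true, if_neg hij.symm, MvPolynomial.algebraMap_apply, map_mul]
    ring
  rw [h2] at hm2
  have h6 : (X (0, 0) ^ m (i, 0) * X (0, 1) ^ m (i, 1) * (X (1, 0) ^ m (j, 0) * X (1, 1) ^ m (j, 1)) :
      MvPolynomial (Fin 2 × Fin 2) E) = monomial (Finsupp.single (0, 0) (m (i, 0)) +
        Finsupp.single (0, 1) (m (i, 1)) + (Finsupp.single (1, 0) (m (j, 0)) +
        Finsupp.single (1, 1) (m (j, 1)))) 1 := by
    simp only [X_pow_eq_monomial, monomial_mul, one_mul]
  rw [h6, C_mul_monomial] at hm2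
  have h7 := MvPolynomial.support_monomial_subset hm2
  rw [Finset.mem_singleton] at h7
  rw [h7]
  have hi := h4 i
  have hj := h4 j
  fin_cases a
  · simp
    exact hi
  · simp
    exact hj

end sub

section smooth

variable {K : Type} [Field K] [CharZero K] {n : ℕ}

theorem euler_aeval {W : Type} [Field W] [Algebra K W] {F : MvPolynomial (Fin n × Fin 2) K}
    (hF : Hom4 F) (k : Fin n) (Y : Fin n × Fin 2 → W) :
    Y (k, 0) * aeval Y (pderiv (k, 0) F) + Y (k, 1) * aeval Y (pderiv (k, 1) F) = 4 * aeval Y F := by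
  have h := congrArg (aeval Y) (Pool.Agent.Q182.TT.CHF.euler hF k)
  simp only [map_add, map_mul, aeval_X] at h
  rw [h, map_ofNat]

/-- **The general surface.** -/
theorem smooth_sub {i j : Fin n} (hij : i ≠ j) {F : MvPolynomial (Fin n × Fin 2) K}
    (hF : Hom4 F) (hs : SmoothF F) :
    SmoothF (sub (fun l => algebraMap (MvPolynomial (Fin n) K)
      (FractionRing (MvPolynomial (Fin n) K)) (X l)) i j F) := by
  classical
  set E := FractionRing (MvPolynomial (Fin n) K)
  set W := AlgebraicClosure E
  set c : Fin n → E := fun l => algebraMap (MvPolynomial (Fin n) K) E (X l) with hc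
  intro x hx
  by_contra hcon
  push Not at hcon
  set ξ : Fin n × Fin 2 → W := ext (fun l => algebraMap E W (c l)) i j x with hξ
  have hi : ∀ b, aeval ξ (pderiv (i, b) F) = 0 := by
    intro b
    rw [← aeval_sub, ← pderiv_sub_fst c hij]
    exact hcon (0, b)
  have hj : ∀ b, aeval ξ (pderiv (j, b) F) = 0 := by
    intro b
    rw [← aeval_sub, ← pderiv_sub_snd c hij]
    exact hcon (1, b)
  have h4 : (4 : W) ≠ 0 := by norm_num
  have hF0 : aeval ξ F = 0 := by
    have h := euler_aeval hF i ξ
    rw [hi, hi, mul_zero, mul_zero, zero_add] at h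
    exact (mul_eq_zero.1 h.symm).resolve_left h4
  have hξ0 : ∀ l, l ≠ i → l ≠ j → ξ (l, 0) = 1 := by
    intro l h1 h2
    simp [hξ, ext, h1, h2]
  have hξ1 : ∀ l, l ≠ i → l ≠ j → ξ (l, 1) = algebraMap (MvPolynomial (Fin n) K) W (X l) := by
    intro l h1 h2
    simp only [hξ, ext, if_neg h1, if_neg h2, if_neg (show (1 : Fin 2) ≠ 0 by decide)]
    rw [hc, IsScalarTower.algebraMap_apply (MvPolynomial (Fin n) K) E W]
  have hl1 : ∀ l, l ≠ i → l ≠ j → aeval ξ (pderiv (l, 1) F) = 0 := by
    intro l h1 h2
    obtain ⟨D, hD⟩ := exists_derivation (K := K) l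
    have h5 := chain D ξ F
    rw [hF0, map_zero, Fintype.sum_prod_type] at h5
    rw [Finset.sum_eq_single l] at h5
    · rw [Fin.sum_univ_two, hξ0 l h1 h2, hξ1 l h1 h2, hD l, if_pos rfl, mul_one,
        Derivation.map_one_eq_zero, mul_zero, zero_add] at h5
      exact h5.symm
    · intro m _ hm
      rw [Fin.sum_univ_two]
      by_cases hmi : m = i
      · rw [hmi, hi, hi, zero_mul, zero_mul, zero_add]
      · by_cases hmj : m = j
        · rw [hmj, hj, hj, zero_mul, zero_mul, zero_add]
        · rw [hξ0 m hmi hmj, hξ1 m hmi hmj, hD m, if_neg (Ne.symm hm), mul_zero,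
            Derivation.map_one_eq_zero, mul_zero, zero_add]
    · intro h
      exact absurd (Finset.mem_univ _) h
  have hall : ∀ p, aeval ξ (pderiv p F) = 0 := by
    rintro ⟨l, b⟩
    by_cases h1 : l = i
    · rw [h1]; exact hi b
    · by_cases h2 : l = j
      · rw [h2]; exact hj b
      · have h5 := euler_aeval hF l ξ
        rw [hl1 l h1 h2, hξ0 l h1 h2, hF0, mul_zero, mul_zero, add_zero, one_mul] at h5
        fin_cases b
        · exact h5
        · exact hl1 l h1 h2
  have hne : ∀ l, ∃ b, ξ (l, b) ≠ 0 := by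
    intro l
    by_cases h1 : l = i
    · obtain ⟨b, hb⟩ := hx 0
      refine ⟨b, ?_⟩
      simp only [hξ, ext, if_pos h1]
      exact hb
    · by_cases h2 : l = j
      · obtain ⟨b, hb⟩ := hx 1
        refine ⟨b, ?_⟩
        simp only [hξ, ext, if_neg h1, if_pos h2]
        exact hb
      · refine ⟨0, ?_⟩
        rw [hξ0 l h1 h2]
        exact one_ne_zero
  choose b hb using hne
  obtain ⟨ξ₀, hz, hnz⟩ := specialise' (K := K) ξ (∏ l, X (l, b l)) (by
    rw [map_prod]
    exact Finset.prod_ne_zero_iff.2 fun l _ => by rw [aeval_X]; exact hb l)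
  rw [map_prod] at hnz
  obtain ⟨p, hp⟩ := hs ξ₀ (fun l => ⟨b l, by
    have h5 := Finset.prod_ne_zero_iff.1 hnz l (Finset.mem_univ l)
    rwa [aeval_X] at h5⟩)
  exact hp (hz _ (hall p))

end smooth

end Pool.Agent.K6.H54.CY
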