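import Pool.Agent.K6.H54.CY.Sub
import Pool.Agent.K6.H54.CY.Gen

/-!
# Tangent lines of a smooth divisor of multidegree (4, …, 4) (helper54)
-/

set_option autoImplicit false
set_option linter.unusedSectionVars false

open MvPolynomial

namespace Pool.Agent.K6.H54.CY

open Pool.Agent.Q35.TT (Hom4 SmoothF SmoothN ch pt bd mo)
open Pool.Agent.Q121.TT (cf)
open Pool.Agent.Q224.TT (Lam lin res)

/-- Smoothness after an algebraic extension (as `Pool.Agent.Q221.ZC.smb`, for number fields). -/
theorem smb_alg {K K' : Type} [Field K] [Field K'] [Algebra K K'] [Algebra.IsAlgebraic K K']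
    {n : ℕ} {f : MvPolynomial (Fin n) K} (hf : SmoothN f) : SmoothN (map (algebraMap K K') f) := by
  intro x hx
  have : Algebra.IsAlgebraic K (AlgebraicClosure K') :=
    Algebra.IsAlgebraic.trans K K' (AlgebraicClosure K')
  have : IsAlgClosure K (AlgebraicClosure K') := ⟨inferInstance, inferInstance⟩
  let e : AlgebraicClosure K' ≃ₐ[K] AlgebraicClosure K :=
    IsAlgClosure.equiv K (AlgebraicClosure K') (AlgebraicClosure K)
  obtain ⟨i, k, hik⟩ := hf (fun j l => e (x j l)) (fun j hj => hx j (funext fun l => by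
    have h1 := congrFun hj l
    exact e.injective (by rw [h1]; simp)))
  refine ⟨i, k, fun h0 => hik ?_⟩
  have h1 := congrArg (e : AlgebraicClosure K' →+* AlgebraicClosure K) h0
  rw [map_zero, Pool.Agent.Q221.ZC.bd_map] at h1
  rw [← h1]
  have h2 : (fun l => (e : AlgebraicClosure K' →+* AlgebraicClosure K)
      (Pool.Agent.Q35.TT.lc (map (algebraMap K' (AlgebraicClosure K')) (map (algebraMap K K') f)) x
        i l)) =
      Pool.Agent.Q35.TT.lc (map (algebraMap K (AlgebraicClosure K)) f) (fun j l => e (x j l)) i := by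
    funext l
    rw [Pool.Agent.Q221.ZC.lc_map, MvPolynomial.map_map, MvPolynomial.map_map]
    have h4 : ((e : AlgebraicClosure K' →+* AlgebraicClosure K).comp
        (algebraMap K' (AlgebraicClosure K'))).comp (algebraMap K K') =
        algebraMap K (AlgebraicClosure K) := by
      refine RingHom.ext fun z => ?_
      have h3 := e.commutes z
      rw [IsScalarTower.algebraMap_apply K K' (AlgebraicClosure K')] at h3
      exact h3
    rw [h4]
    rfl
  rw [h2]
  rfl

/-- A line is not contained in a smooth curve of bidegree (4, 4) (as in `Pool.Agent.Q35.ZC.Ct`). -/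
theorem no_line {E : Type} [Field E] [CharZero E] {f : MvPolynomial (Fin 2) E}
    (hd : ∀ j, f.degreeOf j ≤ 4) (hs : SmoothN f) (y : Fin 2 → AlgebraicClosure E) :
    ∃ t : AlgebraicClosure E, aeval (Function.update y 0 t) f ≠ 0 := by
  classical
  set g := map (algebraMap E (AlgebraicClosure E)) f with hg
  have hd' : ∀ j, g.degreeOf j ≤ 4 := fun j =>
    (Pool.Agent.Q224.TT.degreeOf_map_le' f j (algebraMap E (AlgebraicClosure E))).trans (hd j)
  have hs' : SmoothN g := smb_alg hs
  have h1 := (Pool.Agent.Q149.TT.spe (AlgebraicClosure E) _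
    (Pool.Agent.Q121.TT.smooth_swap (Pool.Agent.Q121.TT.smooth hd' hs'))).1 (y 1)
  have h2 := Pool.Agent.Q35.ZC.pq_ne h1
  obtain ⟨t, ht⟩ : ∃ t : AlgebraicClosure E, (Pool.Agent.Q35.TT.pq (Pool.Agent.Q35.TT.cy (fun i j =>
      cf g j i) ![1, y 1])).eval t ≠ 0 := by
    by_contra hcon
    push Not at hcon
    exact h2 (Polynomial.funext fun t => by rw [hcon t, Polynomial.eval_zero])
  rw [Pool.Agent.Q121.TT.pq_eval] at ht
  have h4 := Pool.Agent.Q121.TT.eval_f' g hd' ![t, y 1]
  have h5 : eval ![t, y 1] g ≠ 0 := by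
    rw [h4]
    simpa using ht
  refine ⟨t, ?_⟩
  rw [hg, eval_map, ← aeval_def] at h5
  have h6 : Function.update y 0 t = ![t, y 1] := by
    funext k
    fin_cases k
    · simp
    · simp
  rw [h6]
  exact h5

section charts

variable {K : Type} [Field K] {n : ℕ}

theorem aeval_ch {W : Type} [Field W] [Algebra K W] (F : MvPolynomial (Fin n × Fin 2) K)
    (ε : Fin n → Fin 2) (z : Fin n → W) : aeval z (ch F ε) = aeval (pt ε z) F := by
  have h : (aeval z).comp (aeval (fun p : Fin n × Fin 2 => if p.2 = ε p.1 then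
      (1 : MvPolynomial (Fin n) K) else X p.1)) = aeval (pt ε z : Fin n × Fin 2 → W) := by
    refine algHom_ext fun p => ?_
    rw [AlgHom.comp_apply, aeval_X, aeval_X, pt]
    split_ifs <;> simp
  exact DFunLike.congr_fun h F

open Classical in
/-- The point with the coordinates `y` in the directions `i, j` and `c` in the others. -/
noncomputable def ext2 {W : Type} (c : Fin n → W) (i j : Fin n) (y : Fin 2 → W) (l : Fin n) : W :=
  if l = i then y 0 else if l = j then y 1 else c l

open Classical in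
/-- The chart. -/
noncomputable def eps (i j : Fin n) (ε : Fin 2 → Fin 2) (l : Fin n) : Fin 2 :=
  if l = i then ε 0 else if l = j then ε 1 else 0

theorem ext_pt {W : Type} [Field W] (c : Fin n → W) (i j : Fin n) (ε : Fin 2 → Fin 2)
    (y : Fin 2 → W) : ext c i j (pt ε y) = pt (eps i j ε) (ext2 c i j y) := by
  funext ⟨l, b⟩
  unfold ext pt eps ext2
  by_cases h1 : l = i
  · simp [h1]
  · by_cases h2 : l = j
    · subst h2
      simp [h1]
    · simp [h1, h2]

variable {E : Type} [Field E] [Algebra K E] {W : Type} [Field W] [Algebra K W] [Algebra E W]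
  [IsScalarTower K E W]

theorem aeval_ch_sub (c : Fin n → E) (i j : Fin n) (ε : Fin 2 → Fin 2) (y : Fin 2 → W)
    (F : MvPolynomial (Fin n × Fin 2) K) :
    aeval y (ch (sub c i j F) ε) =
      aeval (ext2 (fun l => algebraMap E W (c l)) i j y) (ch F (eps i j ε)) := by
  rw [aeval_ch, aeval_ch, aeval_sub, ext_pt]

theorem eps_fst (i j : Fin n) (ε : Fin 2 → Fin 2) : eps i j ε i = ε 0 := by
  simp [eps]

theorem eps_snd {i j : Fin n} (hij : i ≠ j) (ε : Fin 2 → Fin 2) : eps i j ε j = ε 1 := by
  simp [eps, hij.symm]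

theorem aeval_ch_fst (c : Fin n → E) {i j : Fin n} (hij : i ≠ j) (ε : Fin 2 → Fin 2) (y : Fin 2 → W)
    (F : MvPolynomial (Fin n × Fin 2) K) :
    aeval y (pderiv 0 (ch (sub c i j F) ε)) =
      aeval (ext2 (fun l => algebraMap E W (c l)) i j y) (pderiv i (ch F (eps i j ε))) := by
  rw [Pool.Agent.Q182.TT.CHF.pderiv_ch, pderiv_sub_fst c hij, aeval_ch_sub,
    Pool.Agent.Q182.TT.CHF.pderiv_ch, eps_fst]

theorem aeval_ch_snd (c : Fin n → E) {i j : Fin n} (hij : i ≠ j) (ε : Fin 2 → Fin 2) (y : Fin 2 → W)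
    (F : MvPolynomial (Fin n × Fin 2) K) :
    aeval y (pderiv 1 (ch (sub c i j F) ε)) =
      aeval (ext2 (fun l => algebraMap E W (c l)) i j y) (pderiv j (ch F (eps i j ε))) := by
  rw [Pool.Agent.Q182.TT.CHF.pderiv_ch, pderiv_sub_snd c hij, aeval_ch_sub,
    Pool.Agent.Q182.TT.CHF.pderiv_ch, eps_snd hij]

end charts

section generic

variable {K : Type} [Field K] [CharZero K] {n : ℕ}

theorem update_ext2 {W : Type} (c : Fin n → W) {i j : Fin n} (y : Fin 2 → W) (t : W) :
    ext2 c i j (Function.update y 0 t) = Function.update (ext2 c i j y) i t := by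
  funext l
  unfold ext2
  by_cases h1 : l = i
  · subst h1
    simp
  · by_cases h2 : l = j
    · subst h2
      simp [h1]
    · simp [h1, h2]

/-- **A tangent line over the algebraic closure of `K(x)`.** -/
theorem tangent_generic {i j : Fin n} (hij : i ≠ j) {F : MvPolynomial (Fin n × Fin 2) K}
    (hF : Hom4 F) (hs : SmoothF F) :
    ∃ (ε : Fin 2 → Fin 2) (y : Fin 2 → AlgebraicClosure (FractionRing (MvPolynomial (Fin n) K)))
      (t : AlgebraicClosure (FractionRing (MvPolynomial (Fin n) K))),
      aeval (ext2 (fun l => algebraMap (MvPolynomial (Fin n) K) _ (X l)) i j y)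
        (ch F (eps i j ε)) = 0 ∧
      aeval (ext2 (fun l => algebraMap (MvPolynomial (Fin n) K) _ (X l)) i j y)
        (pderiv i (ch F (eps i j ε))) = 0 ∧
      aeval (ext2 (fun l => algebraMap (MvPolynomial (Fin n) K) _ (X l)) i j y)
        (pderiv j (ch F (eps i j ε))) ≠ 0 ∧
      aeval (Function.update (ext2 (fun l => algebraMap (MvPolynomial (Fin n) K) _ (X l)) i j y) i t)
        (ch F (eps i j ε)) ≠ 0 := by
  set E := FractionRing (MvPolynomial (Fin n) K)
  set W := AlgebraicClosure E
  set c : Fin n → E := fun l => algebraMap (MvPolynomial (Fin n) K) E (X l) with hc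
  have hcW : (fun l => algebraMap (MvPolynomial (Fin n) K) W (X l)) =
      fun l => algebraMap E W (c l) := by
    funext l
    rw [hc, IsScalarTower.algebraMap_apply (MvPolynomial (Fin n) K) E W]
  rw [hcW]
  have hG := hom4_sub c hij hF
  have hGs : SmoothF (sub c i j F) := smooth_sub hij hF hs
  obtain ⟨ε, y, h0, h1⟩ := Pool.Agent.Q247.ZC.tgt E (sub c i j F) hG hGs
  obtain ⟨hd, hsm, -⟩ := Pool.Agent.Q182.TT.CHF.chf E 2 (sub c i j F) hG ε
  obtain ⟨t, ht⟩ := no_line hd (hsm hGs) y
  refine ⟨ε, y, t, ?_, ?_, ?_, ?_⟩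
  · rw [← aeval_ch_sub]
    exact h0
  · rw [← aeval_ch_fst c hij]
    exact h1
  · rw [← aeval_ch_snd c hij]
    intro h2
    refine Pool.Agent.Q224.TT.no_aff _ hd (hsm hGs) y h0 fun l => ?_
    fin_cases l
    · exact h1
    · exact h2
  · rw [← update_ext2, ← aeval_ch_sub]
    exact ht

end generic

end Pool.Agent.K6.H54.CY
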